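import Mathlib
import Pool.Agent.Helper278.Defs
import Pool.Agent.Helper278.DefsK
import Pool.Agent.Helper278.TrAlg
import Pool.Agent.Helper278.Trace

/-!
Project LF (helper707), part A (helper800): zero patterns of pairs of partitions of unity and
independent pairs of unitaries in `ℂ^r ⊕ N₀`.  Definitions and interface.
-/

set_option autoImplicit false

open scoped InnerProductSpace Topology ComplexOrder BoundedContinuousFunction
open Filter

namespace Pool.Agent.H800R.LFA

open Pool.Agent.Helper278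

/-- Negated form of the question for `(M, τ)`, for every nonprincipal ultrafilter and every model of
the tracial ultrapower: there are independent unitaries `u`, `v` such that for all bounded lifts
`a`, `b` (unitary or not) the set of indices `n` for which `a n`, `b n` are not independent is in
the ultrafilter. -/
def IndepLiftingFails (M : Type) [NormedRing M] [StarRing M] [CStarRing M]
    [NormedAlgebra ℂ M] [StarModule ℂ M] (τ : M → ℂ) : Prop :=
  ∀ U : Ultrafilter ℕ, (∀ n, {n} ∉ U) → ∀ (Q : Type) [Ring Q] [StarRing Q] [Algebra ℂ Q]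
    [StarModule ℂ Q] (π : (ℕ →ᵇ M) →⋆ₐ[ℂ] Q) (σ : Q → ℂ), IsTracialUltrapower τ U π σ →
    ∃ u ∈ unitary Q, ∃ v ∈ unitary Q, IndepPair σ u v ∧
      ∀ a b : ℕ →ᵇ M, π a = u → π b = v → {n | ¬ IndepPair τ (a n) (b n)} ∈ U

/-- Two sequences of partitions of unity in `N₀` whose products vanish asymptotically on `Zs`, but
which are not close to partitions of unity with vanishing products on `Zs`. -/
structure BadPattern {H : Type} [NormedAddCommGroup H] [InnerProductSpace ℂ H] [CompleteSpace H]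
    {N₀ : VonNeumannAlgebra H} (T₀ : TracialState N₀) {I J : Type} [Fintype I] [Fintype J]
    (Zs : I → J → Prop) (p : ℕ → I → Elt N₀) (q : ℕ → J → Elt N₀) (δ : ℝ) : Prop where
  pvm_p : ∀ n, PVM (p n)
  pvm_q : ∀ n, PVM (q n)
  zero : ∀ i j, Zs i j → Tendsto (fun n => T₀.τ (p n i * q n j)) atTop (𝓝 0)
  pos : 0 < δ
  bad : ∀ (n : ℕ) (p' : I → Elt N₀) (q' : J → Elt N₀), PVM p' → PVM q' →
    (∀ i j, Zs i j → p' i * q' j = 0) → (∀ i, n2 T₀.τ (p' i - p n i) < δ) →
    (∀ j, n2 T₀.τ (q' j - q n j) < δ) → False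

/-- Main statement of part A. -/
def S_A : Prop :=
  ∀ (H : Type) [NormedAddCommGroup H] [InnerProductSpace ℂ H] [CompleteSpace H]
    (N₀ : VonNeumannAlgebra H) (T₀ : TracialState N₀) (I J : Type) [Fintype I] [Fintype J]
    (Zs : I → J → Prop) (p : ℕ → I → Elt N₀) (q : ℕ → J → Elt N₀) (δ : ℝ),
    BadPattern T₀ Zs p q δ →
    ∃ (K : Type) (_ : NormedAddCommGroup K) (_ : InnerProductSpace ℂ K) (_ : CompleteSpace K)
      (N : VonNeumannAlgebra K) (τ : Elt N → ℂ) (r : ℕ),
      IsNormalPositive N τ ∧ IsFaithfulTrace τ ∧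
      Nonempty (Elt N ≃⋆ₐ[ℂ] (Fin r → ℂ) × Elt N₀) ∧
      IndepLiftingFails (Elt N) τ ∧ LiftingFails 3 (Elt N) τ ∧
      ¬ LiftsIndependentPairs (Elt N) τ ∧ ¬ LiftsKIndependentPairs 3 (Elt N) τ

end Pool.Agent.H800R.LFA
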