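import Mathlib
import Pool.Agent.H800R.LFA.Defs
import Pool.Agent.Helper278.KLift
import Pool.Agent.Helper436.SN.H2

/-!
Spectral projections of a self-adjoint element `a` of a tracial von Neumann algebra, inside
`W*(a)` (the 2-norm closure of the star algebra generated by `a`).
-/

set_option autoImplicit false
set_option linter.unusedSectionVars false

open scoped InnerProductSpace Topology ComplexOrder BoundedContinuousFunction
open Filter

namespace Pool.Agent.H800R.LFA

open Pool.Agent.Helper278 Pool.Agent.Helper436.SN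

section alg

variable {A : Type} [Ring A] [StarRing A] [Algebra ℂ A] [StarModule ℂ A] {τ : A →ₗ[ℂ] ℂ}

theorem n2_proj_le (h : TrAlg τ) {e : A} (he : star e = e) (hi : e * e = e) (x : A) :
    n2 τ (e * x) ≤ n2 τ x := by
  have h1 : star (e * x) * (e * x) = star x * x - star ((1 - e) * x) * ((1 - e) * x) := by
    have h2 : star (e * x) * (e * x) = star x * (e * x) := by
      rw [star_mul, he, mul_assoc, ← mul_assoc e e x, hi]
    have h3 : star ((1 - e) * x) * ((1 - e) * x) = star x * ((1 - e) * x) := by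
      have h4 : (1 - e) * (1 - e) = 1 - e := by
        rw [sub_mul, mul_sub, mul_sub, hi]; noncomm_ring
      rw [star_mul, star_sub, star_one, he, mul_assoc, ← mul_assoc (1 - e) (1 - e) x, h4]
    rw [h2, h3]
    noncomm_ring
  apply Real.sqrt_le_sqrt
  rw [h1, map_sub, Complex.sub_re]
  have := h.re_nonneg ((1 - e) * x)
  linarith

theorem n2_eq_zero (h : TrAlg τ) {x : A} (hx : n2 τ x = 0) : x = 0 := by
  apply h.faithful
  rw [h.eq_sq, hx]
  norm_num

theorem n2_smul (h : TrAlg τ) (c : ℂ) (x : A) : n2 τ (c • x) = ‖c‖ * n2 τ x := by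
  have h1 : n2 τ (c • x) ^ 2 = (‖c‖ * n2 τ x) ^ 2 := by
    have e := h.eq_sq (c • x)
    rw [star_smul, smul_mul_smul_comm, map_smul, h.eq_sq, smul_eq_mul, Complex.star_def,
      ← Complex.normSq_eq_conj_mul_self] at e
    have e2 : (Complex.normSq c * (n2 τ x ^ 2) : ℝ) = (n2 τ (c • x) ^ 2 : ℝ) := by
      exact_mod_cast e
    rw [← e2, Complex.normSq_eq_norm_sq]
    ring
  have h2 := abs_eq_abs.2 (sq_eq_sq_iff_eq_or_eq_neg.1 h1)
  rwa [abs_of_nonneg (n2_nonneg _ _), abs_of_nonneg (mul_nonneg (norm_nonneg _) (n2_nonneg _ _))]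
    at h2

theorem wstar_closed (h : TrAlg τ) (a : A) (x : ℕ → A) (y : A) (hx : ∀ n, x n ∈ wstar τ a)
    (hl : Tendsto (fun n => n2 τ (x n - y)) atTop (𝓝 0)) : y ∈ wstar τ a := by
  intro ε hε
  obtain ⟨n, hn⟩ := (hl.eventually (gt_mem_nhds (half_pos hε))).exists
  obtain ⟨z, hz, hxz⟩ := hx n (ε / 2) (half_pos hε)
  refine ⟨z, hz, ?_⟩
  have h1 := h.n2_tri y (x n) z
  rw [h.n2_sub_comm y (x n)] at h1
  have h2 : n2 τ (x n - z) < ε / 2 := hxz
  show n2 τ (y - z) < ε
  linarith

/-- a chain of projections gives a partition of unity -/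
theorem pvm_of_chain (m : ℕ) (E : ℕ → A) (h0 : E 0 = 1) (hm : E m = 0)
    (hs : ∀ i, star (E i) = E i) (hE : ∀ i j, i ≤ j → j ≤ m → E i * E j = E j) :
    PVM (fun i : Fin m => E i - E (i + 1)) := by
  have hE' : ∀ i j, i ≤ j → j ≤ m → E j * E i = E j := by
    intro i j hij hj
    have := congrArg star (hE i j hij hj)
    rwa [star_mul, hs, hs] at this
  refine ⟨?_, ?_, ?_, ?_⟩
  · intro i
    rw [star_sub, hs, hs]
  · intro i
    have hi := i.2
    rw [sub_mul, mul_sub, mul_sub, hE _ _ le_rfl hi.le, hE _ _ (Nat.le_succ _) hi,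
      hE' _ _ (Nat.le_succ _) hi, hE _ _ le_rfl hi, sub_self, sub_zero]
  · have key : ∀ i j : Fin m, i < j →
        (E i - E (i + 1)) * (E j - E (j + 1)) = 0 ∧ (E j - E (j + 1)) * (E i - E (i + 1)) = 0 := by
      intro i j hij
      have h1 : (i : ℕ) < j := hij
      have hj := j.2
      constructor
      · rw [sub_mul, mul_sub, mul_sub, hE _ _ h1.le hj.le, hE _ _ (by omega) hj,
          hE _ _ (by omega) hj.le, hE _ _ (by omega) hj]
        noncomm_ring
      · rw [sub_mul, mul_sub, mul_sub, hE' _ _ h1.le hj.le, hE' _ _ (by omega) hj,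
          hE' _ _ (by omega) hj.le, hE' _ _ (by omega) hj]
        noncomm_ring
    intro i j hij
    rcases lt_or_gt_of_ne hij with h | h
    · exact (key i j h).1
    · exact (key j i h).2
  · have h2 := Finset.sum_range_sub' E m
    rw [Finset.sum_range, h0, hm, sub_zero] at h2
    exact h2

end alg

section vn

variable {H : Type} [NormedAddCommGroup H] [InnerProductSpace ℂ H] [CompleteSpace H]
variable {N : VonNeumannAlgebra H}

/-- functional calculus in `N` -/
noncomputable def F (a : Elt N) (ha : star a = a) (g : ℝ → ℝ) : Elt N :=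
  ⟨cfc g (a : H →L[ℂ] H), cfc_mem N g _ a.2 (congrArg Subtype.val ha)⟩

theorem F_coe (a : Elt N) (ha : star a = a) (g : ℝ → ℝ) :
    ((F a ha g : Elt N) : H →L[ℂ] H) = cfc g (a : H →L[ℂ] H) := rfl

theorem sa_coe {a : Elt N} (ha : star a = a) : IsSelfAdjoint (a : H →L[ℂ] H) :=
  congrArg Subtype.val ha

theorem F_star (a : Elt N) (ha : star a = a) (g : ℝ → ℝ) : star (F a ha g) = F a ha g := by
  apply Subtype.ext
  exact (cfc_predicate g (a : H →L[ℂ] H) : IsSelfAdjoint (cfc g (a : H →L[ℂ] H))).star_eq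

theorem F_mul (a : Elt N) (ha : star a = a) (g h : ℝ → ℝ) (hg : Continuous g)
    (hh : Continuous h) : F a ha g * F a ha h = F a ha (fun t => g t * h t) := by
  apply Subtype.ext
  exact (cfc_mul g h (a : H →L[ℂ] H) hg.continuousOn hh.continuousOn).symm

theorem F_sub (a : Elt N) (ha : star a = a) (g h : ℝ → ℝ) (hg : Continuous g)
    (hh : Continuous h) : F a ha g - F a ha h = F a ha (fun t => g t - h t) := by
  apply Subtype.ext
  exact (cfc_sub g h (a : H →L[ℂ] H) hg.continuousOn hh.continuousOn).symm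

theorem F_one (a : Elt N) (ha : star a = a) : F a ha (fun _ => 1) = 1 := by
  apply Subtype.ext
  exact cfc_const_one ℝ (a : H →L[ℂ] H) (sa_coe ha)

theorem F_id_sub (a : Elt N) (ha : star a = a) (s : ℝ) :
    F a ha (fun t => t - s) = a - (s : ℂ) • 1 := by
  apply Subtype.ext
  have h1 : cfc (fun t : ℝ => t - s) (a : H →L[ℂ] H) = (a : H →L[ℂ] H) -
      algebraMap ℝ (H →L[ℂ] H) s := by
    rw [cfc_sub (fun t : ℝ => t) (fun _ => s) (a : H →L[ℂ] H) continuousOn_id
      continuousOn_const, cfc_id' ℝ (a : H →L[ℂ] H) (sa_coe ha),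
      cfc_const s (a : H →L[ℂ] H) (sa_coe ha)]
  rw [F_coe, h1]
  show _ = (a : H →L[ℂ] H) - (s : ℂ) • (1 : H →L[ℂ] H)
  congr 1

theorem F_nonneg (T : TracialState N) (a : Elt N) (ha : star a = a) (g : ℝ → ℝ)
    (hg : ∀ t, 0 ≤ g t) : 0 ≤ (T.τ (F a ha g)).re := by
  apply tau_re_nonneg
  rw [F_coe]
  exact cfc_nonneg fun t _ => hg t

/-- comparison of 2-norms -/
theorem F_comp (T : TracialState N) (a : Elt N) (ha : star a = a) (g h : ℝ → ℝ)
    (hg : Continuous g) (hh : Continuous h) (hgh : ∀ t, g t ^ 2 ≤ h t ^ 2) (x : Elt N) :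
    n2 T.τ (F a ha g * x) ≤ n2 T.τ (F a ha h * x) := by
  have hA := trAlg T
  let k : ℝ → ℝ := fun t => Real.sqrt (h t ^ 2 - g t ^ 2)
  have hk : Continuous k := ((hh.pow 2).sub (hg.pow 2)).sqrt
  have hkk : ∀ t, k t * k t = h t * h t - g t * g t := by
    intro t
    show Real.sqrt _ * Real.sqrt _ = _
    rw [Real.mul_self_sqrt (by have := hgh t; linarith)]
    ring
  have e : ∀ f : ℝ → ℝ, Continuous f → star (F a ha f * x) * (F a ha f * x) =
      star x * (F a ha (fun t => f t * f t) * x) := by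
    intro f hf
    rw [star_mul, F_star, mul_assoc, ← mul_assoc (F a ha f), F_mul a ha f f hf hf]
  have e2 : star (F a ha g * x) * (F a ha g * x) = star (F a ha h * x) * (F a ha h * x) -
      star (F a ha k * x) * (F a ha k * x) := by
    rw [e g hg, e h hh, e k hk]
    have : F a ha (fun t => k t * k t) = F a ha (fun t => h t * h t) -
        F a ha (fun t => g t * g t) := by
      rw [F_sub a ha (fun t => h t * h t) (fun t => g t * g t) (hh.mul hh) (hg.mul hg)]
      congr 1
      funext t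
      exact hkk t
    rw [this]
    noncomm_ring
  apply Real.sqrt_le_sqrt
  rw [e2, map_sub, Complex.sub_re]
  have := hA.re_nonneg (F a ha k * x)
  linarith

theorem n2_le_norm (T : TracialState N) (x : Elt N) : n2 T.τ x ≤ ‖(x : H →L[ℂ] H)‖ := by
  have hA := trAlg T
  have := n2_mul_le T x 1
  rwa [mul_one, hA.n2_one, mul_one] at this

theorem F_norm (a : Elt N) (ha : star a = a) (g : ℝ → ℝ) (hg : ∀ t, |g t| ≤ 1) :
    ‖((F a ha g : Elt N) : H →L[ℂ] H)‖ ≤ 1 := by
  rw [F_coe]
  exact norm_cfc_le zero_le_one fun t _ => hg t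

theorem adjoin_real_sub (a : Elt N) (y : H →L[ℂ] H)
    (hy : y ∈ StarAlgebra.adjoin ℝ ({(a : H →L[ℂ] H)} : Set (H →L[ℂ] H))) :
    ∃ z ∈ StarAlgebra.adjoin ℂ ({a} : Set (Elt N)), (z : H →L[ℂ] H) = y := by
  induction hy using StarAlgebra.adjoin_induction with
  | mem x hx =>
    refine ⟨a, StarAlgebra.self_mem_adjoin_singleton ℂ a, ?_⟩
    exact (Set.mem_singleton_iff.1 hx).symm
  | algebraMap r =>
    refine ⟨algebraMap ℂ _ (r : ℂ), (StarAlgebra.adjoin ℂ ({a} : Set (Elt N))).algebraMap_mem _, ?_⟩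
    ext v
    show ((r : ℂ) • (1 : H →L[ℂ] H)) v = (algebraMap ℝ (H →L[ℂ] H) r) v
    simp [Algebra.algebraMap_eq_smul_one]
  | add x y _ _ hx hy =>
    obtain ⟨z, hz, rfl⟩ := hx
    obtain ⟨w, hw, rfl⟩ := hy
    exact ⟨z + w, add_mem hz hw, rfl⟩
  | mul x y _ _ hx hy =>
    obtain ⟨z, hz, rfl⟩ := hx
    obtain ⟨w, hw, rfl⟩ := hy
    exact ⟨z * w, mul_mem hz hw, rfl⟩
  | star x _ hx =>
    obtain ⟨z, hz, rfl⟩ := hx
    exact ⟨star z, star_mem hz, rfl⟩

theorem F_mem (T : TracialState N) (a : Elt N) (ha : star a = a) (g : ℝ → ℝ) :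
    F a ha g ∈ wstar T.τ a := by
  intro ε hε
  have h1 : cfc g (a : H →L[ℂ] H) ∈ StarAlgebra.elemental ℝ (a : H →L[ℂ] H) :=
    cfc_mem_elemental g _
  have h2 : cfc g (a : H →L[ℂ] H) ∈
      closure (StarAlgebra.adjoin ℝ ({(a : H →L[ℂ] H)} : Set (H →L[ℂ] H)) : Set (H →L[ℂ] H)) := h1
  rw [Metric.mem_closure_iff] at h2
  obtain ⟨y, hy, hd⟩ := h2 ε hε
  obtain ⟨z, hz, rfl⟩ := adjoin_real_sub a y hy
  refine ⟨z, hz, ?_⟩
  refine lt_of_le_of_lt (n2_le_norm T _) ?_
  rw [dist_eq_norm] at hd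
  exact hd

/-- the cut off functions, increasing to the indicator of `(t, ∞)` -/
noncomputable def fc (t : ℝ) (k : ℕ) (x : ℝ) : ℝ := min 1 (max 0 (((k : ℝ) + 1) * (x - t) - 1))

theorem fc_cont (t : ℝ) (k : ℕ) : Continuous (fc t k) := by
  unfold fc
  fun_prop

theorem fc_nonneg (t : ℝ) (k : ℕ) (x : ℝ) : 0 ≤ fc t k x := le_min zero_le_one (le_max_left _ _)

theorem fc_le_one (t : ℝ) (k : ℕ) (x : ℝ) : fc t k x ≤ 1 := min_le_left _ _

theorem fc_abs (t : ℝ) (k : ℕ) (x : ℝ) : |fc t k x| ≤ 1 := by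
  rw [abs_of_nonneg (fc_nonneg t k x)]
  exact fc_le_one t k x

theorem fc_eq_zero (t : ℝ) (k : ℕ) (x : ℝ) (h : ((k : ℝ) + 1) * (x - t) ≤ 1) : fc t k x = 0 := by
  unfold fc
  rw [max_eq_left (by linarith), min_eq_right zero_le_one]

theorem fc_eq_one (t : ℝ) (k : ℕ) (x : ℝ) (h : 2 ≤ ((k : ℝ) + 1) * (x - t)) : fc t k x = 1 := by
  unfold fc
  exact min_eq_left (le_max_of_le_right (by linarith))

theorem fc_mono (t : ℝ) {k l : ℕ} (hkl : k ≤ l) (x : ℝ) : fc t k x ≤ fc t l x := by
  rcases le_or_gt (((k : ℝ) + 1) * (x - t)) 1 with h | h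
  · rw [fc_eq_zero t k x h]
    exact fc_nonneg _ _ _
  · unfold fc
    refine min_le_min le_rfl (max_le_max le_rfl ?_)
    have h1 : (k : ℝ) ≤ l := by exact_mod_cast hkl
    have h2 : 0 < x - t := by
      by_contra hc
      push Not at hc
      have : ((k : ℝ) + 1) * (x - t) ≤ 0 := mul_nonpos_of_nonneg_of_nonpos (by positivity) hc
      linarith
    nlinarith

theorem fc_absorb (t t' : ℝ) (htt : t ≤ t') (k l : ℕ) (hkl : 2 * k + 1 ≤ l) (x : ℝ) :
    fc t l x * fc t' k x = fc t' k x := by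
  rcases le_or_gt (((k : ℝ) + 1) * (x - t')) 1 with h | h
  · rw [fc_eq_zero t' k x h, mul_zero]
  · rw [fc_eq_one t l x, one_mul]
    have h1 : (2 * k + 1 : ℝ) ≤ l := by exact_mod_cast hkl
    have h2 : 0 < x - t' := by
      by_contra hc
      push Not at hc
      have : ((k : ℝ) + 1) * (x - t') ≤ 0 := mul_nonpos_of_nonneg_of_nonpos (by positivity) hc
      linarith
    have h3 : x - t' ≤ x - t := by linarith
    have h4 : 0 ≤ (k : ℝ) := Nat.cast_nonneg k
    have h5 : ((k : ℝ) + 1) * (x - t') ≤ ((k : ℝ) + 1) * (x - t) :=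
      mul_le_mul_of_nonneg_left h3 (by positivity)
    nlinarith

/-- 2-norm convergence -/
def Lim (T : TracialState N) (x : ℕ → Elt N) (y : Elt N) : Prop :=
  Tendsto (fun n => n2 T.τ (x n - y)) atTop (𝓝 0)

theorem lim_unique (T : TracialState N) {x : ℕ → Elt N} {y z : Elt N} (h1 : Lim T x y)
    (h2 : Lim T x z) : y = z := by
  have hA := trAlg T
  have h3 : Tendsto (fun _ : ℕ => n2 T.τ (y - z)) atTop (𝓝 0) := by
    have h4 := h1.add h2
    rw [add_zero] at h4
    refine squeeze_zero (fun _ => n2_nonneg _ _) (fun n => ?_) h4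
    have := hA.n2_tri y (x n) z
    rwa [hA.n2_sub_comm y (x n)] at this
  have h5 := tendsto_nhds_unique h3 tendsto_const_nhds
  exact sub_eq_zero.1 (n2_eq_zero hA h5.symm)

theorem lim_const (T : TracialState N) (y : Elt N) : Lim T (fun _ => y) y := by
  unfold Lim
  simp only [sub_self, (trAlg T).n2_zero]
  exact tendsto_const_nhds

theorem lim_mul_left (T : TracialState N) (z : Elt N) {x : ℕ → Elt N} {y : Elt N}
    (h : Lim T x y) : Lim T (fun n => z * x n) (z * y) := by
  have h1 := h.const_mul ‖(z : H →L[ℂ] H)‖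
  rw [mul_zero] at h1
  refine squeeze_zero (fun _ => n2_nonneg _ _) (fun n => ?_) h1
  rw [← mul_sub]
  exact n2_mul_le T _ _

theorem lim_mul_right (T : TracialState N) (z : Elt N) {x : ℕ → Elt N} {y : Elt N}
    (h : Lim T x y) : Lim T (fun n => x n * z) (y * z) := by
  have h1 := h.const_mul ‖(z : H →L[ℂ] H)‖
  rw [mul_zero] at h1
  refine squeeze_zero (fun _ => n2_nonneg _ _) (fun n => ?_) h1
  rw [← sub_mul]
  exact n2_mul_le' T _ _

theorem lim_n2 (T : TracialState N) {x : ℕ → Elt N} {y : Elt N} (h : Lim T x y) :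
    Tendsto (fun n => n2 T.τ (x n)) atTop (𝓝 (n2 T.τ y)) := by
  have hA := trAlg T
  rw [tendsto_iff_norm_sub_tendsto_zero]
  refine squeeze_zero (fun _ => norm_nonneg _) (fun n => ?_) h
  rw [Real.norm_eq_abs, abs_le]
  have h1 := hA.n2_add_le (x n - y) y
  rw [sub_add_cancel] at h1
  have h2 := hA.n2_add_le (y - x n) (x n)
  rw [sub_add_cancel, hA.n2_sub_comm] at h2
  constructor <;> linarith

/-- completeness of the unit ball -/
theorem cauchy_lim (T : TracialState N) (x : ℕ → Elt N) (hx : ∀ n, ‖(x n : H →L[ℂ] H)‖ ≤ 1)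
    (hc : ∀ ε : ℝ, 0 < ε → ∃ n₀, ∀ m n, n₀ ≤ m → m ≤ n → n2 T.τ (x m - x n) ≤ ε) :
    ∃ y, Lim T x y := by
  have hA := trAlg T
  have h1 : ∀ j : ℕ, ∃ n₀, ∀ m n, n₀ ≤ m → m ≤ n → n2 T.τ (x m - x n) ≤ (1 / 2) ^ j :=
    fun j => hc _ (by positivity)
  choose n₀ hn₀ using h1
  let φ : ℕ → ℕ := fun j => (Finset.range (j + 1)).sup n₀
  have hφ : ∀ j, n₀ j ≤ φ j := fun j =>
    Finset.le_sup (f := n₀) (Finset.mem_range.2 (Nat.lt_succ_self j))
  have hφm : ∀ j, φ j ≤ φ (j + 1) := fun j =>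
    Finset.sup_mono (Finset.range_mono (by omega))
  obtain ⟨y, -, hy⟩ := ballElt_complete T (fun j => x (φ j)) (fun j => hx _)
    (fun j => hn₀ j _ _ (hφ j) (hφm j))
  refine ⟨y, ?_⟩
  unfold Lim
  rw [Metric.tendsto_atTop] at hy ⊢
  intro ε hε
  obtain ⟨j₀, hj₀⟩ := hy (ε / 2) (half_pos hε)
  obtain ⟨j₁, hj₁⟩ := exists_pow_lt_of_lt_one (half_pos hε) (by norm_num : (1 / 2 : ℝ) < 1)
  let j := max j₀ j₁
  refine ⟨φ j, fun n hn => ?_⟩
  have h2 := hj₀ j (le_max_left _ _)
  rw [Real.dist_eq, sub_zero, abs_of_nonneg (n2_nonneg _ _)] at h2 ⊢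
  have h3 := hn₀ j (φ j) n (hφ j) hn
  have h4 : (1 / 2 : ℝ) ^ j ≤ (1 / 2) ^ j₁ :=
    pow_le_pow_of_le_one (by norm_num) (by norm_num) (le_max_right _ _)
  have h5 := hA.n2_tri (x n) (x (φ j)) y
  have h6 := hA.n2_sub_comm (x n) (x (φ j))
  linarith

theorem F_one_sub (a : Elt N) (ha : star a = a) (g : ℝ → ℝ) (hg : Continuous g) :
    F a ha (fun t => 1 - g t) = 1 - F a ha g := by
  rw [← F_one a ha, F_sub a ha (fun _ => 1) g continuous_const hg]

theorem exists_spec (T : TracialState N) (a : Elt N) (ha : star a = a) (t : ℝ) :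
    ∃ e : Elt N, Lim T (fun k => F a ha (fc t k)) e := by
  have hA := trAlg T
  apply cauchy_lim T _ (fun n => F_norm a ha _ (fc_abs t n))
  -- the traces are monotone and bounded
  let s : ℕ → ℝ := fun k => (T.τ (F a ha (fc t k))).re
  have hs : Monotone s := by
    intro k l hkl
    have h1 := F_nonneg T a ha (fun x => fc t l x - fc t k x) (fun x => by
      have := fc_mono t hkl x; linarith)
    rw [← F_sub a ha _ _ (fc_cont t l) (fc_cont t k), map_sub, Complex.sub_re] at h1
    show (T.τ (F a ha (fc t k))).re ≤ (T.τ (F a ha (fc t l))).re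
    linarith
  have hb : BddAbove (Set.range s) := by
    refine ⟨1, ?_⟩
    rintro _ ⟨k, rfl⟩
    have h1 := F_nonneg T a ha (fun x => 1 - fc t k x) (fun x => by
      have := fc_le_one t k x; linarith)
    rw [F_one_sub a ha _ (fc_cont t k), map_sub, T.map_one, Complex.sub_re, Complex.one_re] at h1
    show (T.τ (F a ha (fc t k))).re ≤ 1
    linarith
  have hlim := tendsto_atTop_ciSup hs hb
  intro ε hε
  rw [Metric.tendsto_atTop] at hlim
  obtain ⟨n₀, hn₀⟩ := hlim (ε ^ 2 / 2) (by positivity)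
  refine ⟨n₀, fun m n hm hmn => ?_⟩
  have h1 := hn₀ m hm
  have h2 := hn₀ n (hm.trans hmn)
  rw [Real.dist_eq, abs_lt] at h1 h2
  have h3 : n2 T.τ (F a ha (fc t m) - F a ha (fc t n)) ^ 2 ≤ s n - s m := by
    rw [hA.n2_sub_comm, hA.n2_sq, F_sub a ha _ _ (fc_cont t n) (fc_cont t m), F_star,
      F_mul a ha (fun x => fc t n x - fc t m x) (fun x => fc t n x - fc t m x)
        ((fc_cont t n).sub (fc_cont t m)) ((fc_cont t n).sub (fc_cont t m))]
    have h4 := F_nonneg T a ha (fun x => (fc t n x - fc t m x) -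
      (fc t n x - fc t m x) * (fc t n x - fc t m x)) (fun x => by
        have h5 := fc_mono t hmn x
        have h6 := fc_le_one t n x
        have h7 := fc_nonneg t m x
        nlinarith)
    rw [← F_sub a ha (fun x => fc t n x - fc t m x)
      (fun x => (fc t n x - fc t m x) * (fc t n x - fc t m x))
      ((fc_cont t n).sub (fc_cont t m))
      (((fc_cont t n).sub (fc_cont t m)).mul ((fc_cont t n).sub (fc_cont t m))), map_sub,
      Complex.sub_re, ← F_sub a ha _ _ (fc_cont t n) (fc_cont t m), map_sub, Complex.sub_re] at h4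
    show _ ≤ (T.τ (F a ha (fc t n))).re - (T.τ (F a ha (fc t m))).re
    linarith
  have h5 : n2 T.τ (F a ha (fc t m) - F a ha (fc t n)) ^ 2 ≤ ε ^ 2 := by linarith
  exact (pow_le_pow_iff_left₀ (n2_nonneg _ _) hε.le two_ne_zero).1 h5

/-- spectral projections for half lines -/
noncomputable def ep (T : TracialState N) (a : Elt N) (ha : star a = a) (t : ℝ) : Elt N :=
  (exists_spec T a ha t).choose

theorem ep_lim (T : TracialState N) (a : Elt N) (ha : star a = a) (t : ℝ) :
    Lim T (fun k => F a ha (fc t k)) (ep T a ha t) := (exists_spec T a ha t).choose_spec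

theorem ep_mem (T : TracialState N) (a : Elt N) (ha : star a = a) (t : ℝ) :
    ep T a ha t ∈ wstar T.τ a :=
  wstar_closed (trAlg T) a _ _ (fun _ => F_mem T a ha _) (ep_lim T a ha t)

theorem ep_star (T : TracialState N) (a : Elt N) (ha : star a = a) (t : ℝ) :
    star (ep T a ha t) = ep T a ha t := by
  have hA := trAlg T
  refine lim_unique T (x := fun k => F a ha (fc t k)) ?_ (ep_lim T a ha t)
  have h1 := ep_lim T a ha t
  unfold Lim at h1 ⊢
  refine h1.congr fun n => ?_
  rw [← hA.n2_star, star_sub, F_star]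

theorem ep_mul (T : TracialState N) (a : Elt N) (ha : star a = a) (t t' : ℝ) (htt : t ≤ t') :
    ep T a ha t * ep T a ha t' = ep T a ha t' := by
  have h1 : ∀ k, ep T a ha t * F a ha (fc t' k) = F a ha (fc t' k) := by
    intro k
    refine lim_unique T (x := fun l => F a ha (fc t l) * F a ha (fc t' k))
      (lim_mul_right T _ (ep_lim T a ha t)) ?_
    have h2 := lim_const T (F a ha (fc t' k))
    unfold Lim at h2 ⊢
    refine h2.congr' ?_
    filter_upwards [eventually_ge_atTop (2 * k + 1)] with l hl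
    rw [F_mul a ha _ _ (fc_cont t l) (fc_cont t' k)]
    congr 3
    funext x
    exact (fc_absorb t t' htt k l hl x).symm
  refine lim_unique T (x := fun k => ep T a ha t * F a ha (fc t' k))
    (lim_mul_left T _ (ep_lim T a ha t')) ?_
  simp only [h1]
  exact ep_lim T a ha t'

/-- off the spectral value `s` -/
theorem ep_above (T : TracialState N) (a : Elt N) (ha : star a = a) (t s : ℝ) (hst : s < t)
    (x : Elt N) : n2 T.τ (ep T a ha t * x) ≤ (2 / (t - s)) * n2 T.τ ((a - (s : ℂ) • 1) * x) := by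
  have hA := trAlg T
  have hd : 0 < t - s := by linarith
  have h1 := lim_n2 T (lim_mul_right T x (ep_lim T a ha t))
  refine le_of_tendsto h1 (Eventually.of_forall fun k => ?_)
  have h2 := F_comp T a ha (fc t k) (fun y => (2 / (t - s)) * (y - s)) (fc_cont t k)
    (by fun_prop) (fun y => by
      rcases le_or_gt y t with h | h
      · rw [fc_eq_zero t k y (by
          have : ((k : ℝ) + 1) * (y - t) ≤ 0 :=
            mul_nonpos_of_nonneg_of_nonpos (by positivity) (by linarith)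
          linarith)]
        nlinarith [sq_nonneg ((2 / (t - s)) * (y - s))]
      · have h3 := fc_nonneg t k y
        have h4 := fc_le_one t k y
        have h5 : 1 ≤ (2 / (t - s)) * (y - s) := by
          rw [div_mul_eq_mul_div, le_div_iff₀ hd]
          linarith
        nlinarith) x
  refine h2.trans (le_of_eq ?_)
  have h3 : F a ha (fun y => (2 / (t - s)) * (y - s)) =
      ((2 / (t - s) : ℝ) : ℂ) • (a - (s : ℂ) • 1) := by
    rw [← F_id_sub a ha s]
    apply Subtype.ext
    show cfc (fun y : ℝ => (2 / (t - s)) * (y - s)) (a : H →L[ℂ] H) =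
      ((2 / (t - s) : ℝ) : ℂ) • cfc (fun y : ℝ => y - s) (a : H →L[ℂ] H)
    rw [cfc_const_mul (2 / (t - s)) (fun y : ℝ => y - s) (a : H →L[ℂ] H)
      (Continuous.continuousOn (by fun_prop))]
    rfl
  rw [h3, smul_mul_assoc, n2_smul hA, Complex.norm_real, Real.norm_eq_abs,
    abs_of_pos (by positivity)]

theorem ep_below (T : TracialState N) (a : Elt N) (ha : star a = a) (t s : ℝ) (hst : t < s)
    (x : Elt N) :
    n2 T.τ ((1 - ep T a ha t) * x) ≤ (2 / (s - t)) * n2 T.τ ((a - (s : ℂ) • 1) * x) := by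
  have hA := trAlg T
  have hd : 0 < s - t := by linarith
  have h0 : Lim T (fun k => 1 - F a ha (fc t k)) (1 - ep T a ha t) := by
    have h1 := ep_lim T a ha t
    unfold Lim at h1 ⊢
    refine h1.congr fun n => ?_
    rw [hA.n2_sub_comm, sub_sub_sub_cancel_left, hA.n2_sub_comm]
  have h1 := lim_n2 T (lim_mul_right T x h0)
  refine le_of_tendsto h1 ?_
  obtain ⟨k₀, hk₀⟩ := exists_nat_gt (4 / (s - t))
  filter_upwards [eventually_ge_atTop k₀] with k hk
  have hk' : 4 / (s - t) < (k : ℝ) + 1 := by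
    have : (k₀ : ℝ) ≤ k := by exact_mod_cast hk
    linarith
  rw [div_lt_iff₀ hd] at hk'
  rw [← F_one_sub a ha _ (fc_cont t k)]
  have h2 := F_comp T a ha (fun y => 1 - fc t k y) (fun y => (2 / (s - t)) * (y - s))
    (continuous_const.sub (fc_cont t k)) (by fun_prop) (fun y => by
      rcases le_or_gt (t + (s - t) / 2) y with h | h
      · rw [fc_eq_one t k y (by nlinarith)]
        nlinarith [sq_nonneg ((2 / (s - t)) * (y - s))]
      · have h3 := fc_nonneg t k y
        have h4 := fc_le_one t k y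
        have h5 : 1 ≤ (2 / (s - t)) * (s - y) := by
          rw [div_mul_eq_mul_div, le_div_iff₀ hd]
          linarith
        have h6 : ((2 / (s - t)) * (y - s)) ^ 2 = ((2 / (s - t)) * (s - y)) ^ 2 := by ring
        rw [h6]
        nlinarith) x
  refine h2.trans (le_of_eq ?_)
  have h3 : F a ha (fun y => (2 / (s - t)) * (y - s)) =
      ((2 / (s - t) : ℝ) : ℂ) • (a - (s : ℂ) • 1) := by
    rw [← F_id_sub a ha s]
    apply Subtype.ext
    show cfc (fun y : ℝ => (2 / (s - t)) * (y - s)) (a : H →L[ℂ] H) =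
      ((2 / (s - t) : ℝ) : ℂ) • cfc (fun y : ℝ => y - s) (a : H →L[ℂ] H)
    rw [cfc_const_mul (2 / (s - t)) (fun y : ℝ => y - s) (a : H →L[ℂ] H)
      (Continuous.continuousOn (by fun_prop))]
    rfl
  rw [h3, smul_mul_assoc, n2_smul hA, Complex.norm_real, Real.norm_eq_abs,
    abs_of_pos (by positivity)]

/-- Spectral partition of unity for thresholds at half integers. -/
theorem spec_pvm (T : TracialState N) (a : Elt N) (ha : star a = a) (m : ℕ) (hm : 0 < m) :
    ∃ P : Fin m → Elt N, PVM P ∧ (∀ i, P i ∈ wstar T.τ a) ∧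
      ∀ i k : Fin m, k ≠ i → ∀ x, n2 T.τ (P i * x) ≤
        4 * n2 T.τ ((a - (((k : ℕ) : ℝ) : ℂ) • 1) * x) := by
  have hA := trAlg T
  let E : ℕ → Elt N := fun j => if j = 0 then 1 else if j < m then ep T a ha ((j : ℝ) - 1 / 2)
    else 0
  have hE0 : E 0 = 1 := rfl
  have hEm : E m = 0 := by
    show (if m = 0 then 1 else if m < m then _ else 0) = _
    rw [if_neg hm.ne', if_neg (lt_irrefl m)]
  have hEj : ∀ j, j ≠ 0 → j < m → E j = ep T a ha ((j : ℝ) - 1 / 2) := by
    intro j h1 h2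
    show (if j = 0 then 1 else if j < m then _ else 0) = _
    rw [if_neg h1, if_pos h2]
  have hEs : ∀ i, star (E i) = E i := by
    intro i
    show star (if i = 0 then 1 else if i < m then ep T a ha ((i : ℝ) - 1 / 2) else 0) =
      (if i = 0 then 1 else if i < m then ep T a ha ((i : ℝ) - 1 / 2) else 0)
    split_ifs
    · exact star_one _
    · exact ep_star T a ha _
    · exact star_zero _
  have hEE : ∀ i j, i ≤ j → j ≤ m → E i * E j = E j := by
    intro i j hij hjm
    rcases Nat.eq_zero_or_pos i with h | h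
    · rw [h, hE0, one_mul]
    · rcases hjm.lt_or_eq with h2 | h2
      · rw [hEj i h.ne' (by omega), hEj j (by omega) h2]
        apply ep_mul
        have : (i : ℝ) ≤ j := by exact_mod_cast hij
        linarith
      · rw [h2, hEm, mul_zero]
  have hEi : ∀ i, i ≤ m → E i * E i = E i := fun i hi => hEE i i le_rfl hi
  have h1w : (1 : Elt N) ∈ wstar T.τ a := adjoin_sub_wstar' a _ (one_mem _)
  have h0w : (0 : Elt N) ∈ wstar T.τ a := adjoin_sub_wstar' a _ (zero_mem _)
  have hEw : ∀ i, E i ∈ wstar T.τ a := by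
    intro i
    show (if i = 0 then (1 : Elt N) else if i < m then ep T a ha ((i : ℝ) - 1 / 2) else 0) ∈ _
    split_ifs
    · exact h1w
    · exact ep_mem T a ha _
    · exact h0w
  have hP := pvm_of_chain m E hE0 hEm hEs hEE
  have hEE' : ∀ i j, i ≤ j → j ≤ m → E j * E i = E j := by
    intro i j hij hj
    have := congrArg star (hEE i j hij hj)
    rwa [star_mul, hEs, hEs] at this
  refine ⟨fun i => E i - E (i + 1), hP, ?_, ?_⟩
  · intro i ε hε
    obtain ⟨y, hy, hxy⟩ := hEw i (ε / 2) (half_pos hε)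
    obtain ⟨z, hz, hxz⟩ := hEw (i + 1) (ε / 2) (half_pos hε)
    refine ⟨y - z, sub_mem hy hz, ?_⟩
    have h1 : n2 T.τ (E i - y) < ε / 2 := hxy
    have h2 : n2 T.τ (E (i + 1) - z) < ε / 2 := hxz
    show n2 T.τ (E i - E (i + 1) - (y - z)) < ε
    have h3 := hA.n2_sub_le (E i - y) (E (i + 1) - z)
    have h4 : E i - y - (E (i + 1) - z) = E i - E (i + 1) - (y - z) := by abel
    rw [h4] at h3
    linarith
  · intro i k hki x
    have hi := i.2
    have hk := k.2
    have hPs : star (E i - E (i + 1)) = E i - E (i + 1) := hP.star_eq i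
    have hPi : (E i - E (i + 1)) * (E i - E (i + 1)) = E i - E (i + 1) := hP.idem i
    rcases lt_or_gt_of_ne hki with h | h
    · have hlt : (k : ℕ) < i := h
      have e0 : (E i - E (i + 1)) * E i = E i - E (i + 1) := by
        rw [sub_mul, hEi i hi.le, hEE' _ _ (Nat.le_succ _) hi]
      have e1 : (E i - E (i + 1)) * x = (E i - E (i + 1)) * (E i * x) := by
        rw [← mul_assoc, e0]
      show n2 T.τ ((E i - E (i + 1)) * x) ≤ _
      rw [e1]
      refine (n2_proj_le hA hPs hPi _).trans ?_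
      have hi0 : (i : ℕ) ≠ 0 := by omega
      rw [hEj i hi0 hi]
      have hlt' : ((k : ℕ) : ℝ) + 1 ≤ ((i : ℕ) : ℝ) := by exact_mod_cast hlt
      refine (ep_above T a ha _ ((k : ℕ) : ℝ) (by linarith) x).trans ?_
      refine mul_le_mul_of_nonneg_right ?_ (n2_nonneg _ _)
      rw [div_le_iff₀ (by linarith)]
      linarith
    · have hlt : (i : ℕ) < k := h
      have e0 : (E i - E (i + 1)) * (1 - E (i + 1)) = E i - E (i + 1) := by
        rw [mul_sub, mul_one, sub_mul (E i) (E (i + 1)) (E (i + 1)),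
          hEE _ _ (Nat.le_succ _) hi, hEi _ hi, sub_self, sub_zero]
      have e1 : (E i - E (i + 1)) * x = (E i - E (i + 1)) * ((1 - E (i + 1)) * x) := by
        rw [← mul_assoc, e0]
      show n2 T.τ ((E i - E (i + 1)) * x) ≤ _
      rw [e1]
      refine (n2_proj_le hA hPs hPi _).trans ?_
      rw [hEj (i + 1) (by omega) (by omega)]
      have hlt' : ((i : ℕ) : ℝ) + 1 ≤ ((k : ℕ) : ℝ) := by exact_mod_cast hlt
      have hc : (((i : ℕ) + 1 : ℕ) : ℝ) = ((i : ℕ) : ℝ) + 1 := by push_cast; rfl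
      refine (ep_below T a ha _ ((k : ℕ) : ℝ) (by rw [hc]; linarith) x).trans ?_
      refine mul_le_mul_of_nonneg_right ?_ (n2_nonneg _ _)
      rw [div_le_iff₀ (by rw [hc]; linarith), hc]
      linarith

end vn

end Pool.Agent.H800R.LFA
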