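import Mathlib
import Pool.Agent.H800R.LFA.Defs
import Pool.Agent.Helper278.KLift

/-!
The von Neumann algebra `ℂ^r ⊕ N₀` with a weighted trace.
-/

set_option autoImplicit false
set_option linter.unusedSectionVars false

open scoped InnerProductSpace Topology ComplexOrder
open Filter

namespace Pool.Agent.H800R.LFA

open Pool.Agent.Helper278

section frame

variable {H : Type} [NormedAddCommGroup H] [InnerProductSpace ℂ H] [CompleteSpace H]
variable {K : Type} [NormedAddCommGroup K] [InnerProductSpace ℂ K] [CompleteSpace K]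
variable {r : ℕ}

/-- a decomposition `K = ℂ^r ⊕ H` -/
structure Fr (δ : Fin r → K) (V : H →L[ℂ] K) (W : K →L[ℂ] H) : Prop where
  on : ∀ s s', ⟪δ s, δ s'⟫_ℂ = if s = s' then 1 else 0
  adj : ∀ (y : H) (k : K), ⟪V y, k⟫_ℂ = ⟪y, W k⟫_ℂ
  WV : ∀ y, W (V y) = y
  Wδ : ∀ s, W (δ s) = 0
  sum : ∀ k : K, ∑ s, ⟪δ s, k⟫_ℂ • δ s + V (W k) = k

/-- rank one operators -/
noncomputable def D (δ : Fin r → K) (s : Fin r) : K →L[ℂ] K := (innerSL ℂ (δ s)).smulRight (δ s)

theorem D_apply (δ : Fin r → K) (s : Fin r) (k : K) : D δ s k = ⟪δ s, k⟫_ℂ • δ s := rfl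

/-- the block on `H` -/
noncomputable def Bk (V : H →L[ℂ] K) (W : K →L[ℂ] H) (x : H →L[ℂ] H) : K →L[ℂ] K := V ∘L x ∘L W

theorem Bk_apply (V : H →L[ℂ] K) (W : K →L[ℂ] H) (x : H →L[ℂ] H) (k : K) :
    Bk V W x k = V (x (W k)) := rfl

variable {δ : Fin r → K} {V : H →L[ℂ] K} {W : K →L[ℂ] H}

theorem Fr.adj' (h : Fr δ V W) (k : K) (y : H) : ⟪k, V y⟫_ℂ = ⟪W k, y⟫_ℂ := by
  rw [← inner_conj_symm, h.adj, inner_conj_symm]

theorem Fr.star_D (_ : Fr δ V W) (s : Fin r) : star (D δ s) = D δ s := by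
  rw [ContinuousLinearMap.star_eq_adjoint]
  refine (ContinuousLinearMap.eq_adjoint_iff _ _).2 (fun x y => ?_) |>.symm
  rw [D_apply, D_apply, inner_smul_left, inner_smul_right, inner_conj_symm]
  ring

theorem Fr.star_Bk (h : Fr δ V W) (x : H →L[ℂ] H) : star (Bk V W x) = Bk V W (star x) := by
  rw [ContinuousLinearMap.star_eq_adjoint]
  refine (ContinuousLinearMap.eq_adjoint_iff _ _).2 (fun u v => ?_) |>.symm
  rw [Bk_apply, Bk_apply, h.adj, h.adj', ContinuousLinearMap.star_eq_adjoint,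
    ContinuousLinearMap.adjoint_inner_left]

theorem Fr.inner_V (h : Fr δ V W) (s : Fin r) (y : H) : ⟪δ s, V y⟫_ℂ = 0 := by
  rw [h.adj', h.Wδ, inner_zero_left]

/-- the algebra of the sum, as operators -/
noncomputable def Op (δ : Fin r → K) (V : H →L[ℂ] K) (W : K →L[ℂ] H) (c : Fin r → ℂ)
    (x : H →L[ℂ] H) : K →L[ℂ] K := ∑ s, c s • D δ s + Bk V W x

theorem Op_apply (c : Fin r → ℂ) (x : H →L[ℂ] H) (k : K) :
    Op δ V W c x k = ∑ s, (c s * ⟪δ s, k⟫_ℂ) • δ s + V (x (W k)) := by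
  unfold Op
  rw [add_apply, sum_apply, Bk_apply]
  congr 1
  refine Finset.sum_congr rfl fun s _ => ?_
  rw [smul_apply, D_apply, smul_smul]

theorem Fr.W_Op (h : Fr δ V W) (c : Fin r → ℂ) (x : H →L[ℂ] H) (k : K) :
    W (Op δ V W c x k) = x (W k) := by
  rw [Op_apply, map_add, h.WV, map_sum]
  simp [h.Wδ]

theorem Fr.inner_Op (h : Fr δ V W) (c : Fin r → ℂ) (x : H →L[ℂ] H) (k : K) (s : Fin r) :
    ⟪δ s, Op δ V W c x k⟫_ℂ = c s * ⟪δ s, k⟫_ℂ := by
  rw [Op_apply, inner_add_right, h.inner_V, add_zero, inner_sum, Finset.sum_eq_single s]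
  · rw [inner_smul_right, h.on, if_pos rfl, mul_one]
  · intro s' _ hs
    rw [inner_smul_right, h.on, if_neg (Ne.symm hs), mul_zero]
  · intro hs
    exact absurd (Finset.mem_univ s) hs

theorem Fr.ext (h : Fr δ V W) {a b : K} (h1 : ∀ s, ⟪δ s, a⟫_ℂ = ⟪δ s, b⟫_ℂ) (h2 : W a = W b) :
    a = b := by
  rw [← h.sum a, ← h.sum b, h2]
  simp only [h1]

theorem Fr.Op_mul (h : Fr δ V W) (c c' : Fin r → ℂ) (x x' : H →L[ℂ] H) :
    Op δ V W c x * Op δ V W c' x' = Op δ V W (c * c') (x * x') := by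
  ext k
  show Op δ V W c x (Op δ V W c' x' k) = _
  apply h.ext
  · intro s
    rw [h.inner_Op, h.inner_Op, h.inner_Op, Pi.mul_apply]
    ring
  · rw [h.W_Op, h.W_Op, h.W_Op]
    rfl

theorem Fr.star_Op (h : Fr δ V W) (c : Fin r → ℂ) (x : H →L[ℂ] H) :
    star (Op δ V W c x) = Op δ V W (star c) (star x) := by
  unfold Op
  rw [star_add, star_sum, h.star_Bk]
  congr 1
  refine Finset.sum_congr rfl fun s _ => ?_
  rw [star_smul, h.star_D]
  rfl

theorem Fr.Op_one (h : Fr δ V W) : Op δ V W 1 1 = 1 := by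
  ext k
  show Op δ V W 1 1 k = k
  apply h.ext
  · intro s
    rw [h.inner_Op, Pi.one_apply, one_mul]
  · rw [h.W_Op]
    rfl

theorem Op_add (c c' : Fin r → ℂ) (x x' : H →L[ℂ] H) :
    Op δ V W (c + c') (x + x') = Op δ V W c x + Op δ V W c' x' := by
  ext k
  show Op δ V W (c + c') (x + x') k = Op δ V W c x k + Op δ V W c' x' k
  rw [Op_apply, Op_apply, Op_apply, add_apply, map_add]
  have : ∑ s, ((c + c') s * ⟪δ s, k⟫_ℂ) • δ s = ∑ s, (c s * ⟪δ s, k⟫_ℂ) • δ s +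
      ∑ s, (c' s * ⟪δ s, k⟫_ℂ) • δ s := by
    rw [← Finset.sum_add_distrib]
    refine Finset.sum_congr rfl fun s _ => ?_
    rw [Pi.add_apply, add_mul, add_smul]
  rw [this]
  abel

theorem Op_smul (z : ℂ) (c : Fin r → ℂ) (x : H →L[ℂ] H) :
    Op δ V W (z • c) (z • x) = z • Op δ V W c x := by
  ext k
  show Op δ V W (z • c) (z • x) k = z • Op δ V W c x k
  rw [Op_apply, Op_apply, smul_apply, map_smul, smul_add, Finset.smul_sum]
  congr 1
  refine Finset.sum_congr rfl fun s _ => ?_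
  rw [Pi.smul_apply, smul_smul, smul_eq_mul, mul_assoc]

/-- the commutant of the direct sum -/
def Gen (N₀ : VonNeumannAlgebra H) (δ : Fin r → K) (V : H →L[ℂ] K) (W : K →L[ℂ] H) :
    Set (K →L[ℂ] K) :=
  {z | (∃ s, z = D δ s) ∨ ∃ t ∈ Set.centralizer (N₀ : Set (H →L[ℂ] H)), z = Bk V W t}

/-- the direct sum `ℂ^r ⊕ N₀` -/
noncomputable def sumVN (N₀ : VonNeumannAlgebra H) (δ : Fin r → K) (V : H →L[ℂ] K)
    (W : K →L[ℂ] H) : VonNeumannAlgebra K where
  toStarSubalgebra := StarSubalgebra.centralizer ℂ (Gen N₀ δ V W)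
  centralizer_centralizer' := by
    show Set.centralizer (Set.centralizer ((StarSubalgebra.centralizer ℂ
      (Gen N₀ δ V W) : StarSubalgebra ℂ (K →L[ℂ] K)) : Set (K →L[ℂ] K))) =
        ((StarSubalgebra.centralizer ℂ (Gen N₀ δ V W) : StarSubalgebra ℂ (K →L[ℂ] K)) :
          Set (K →L[ℂ] K))
    rw [StarSubalgebra.coe_centralizer, Set.centralizer_centralizer_centralizer]

theorem centralizer_star (N₀ : VonNeumannAlgebra H) {t : H →L[ℂ] H}
    (ht : t ∈ Set.centralizer (N₀ : Set (H →L[ℂ] H))) :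
    star t ∈ Set.centralizer (N₀ : Set (H →L[ℂ] H)) := by
  intro x hx
  have h1 := ht (star x) (star_mem hx)
  have h2 := congrArg star h1
  rw [star_mul, star_mul, star_star] at h2
  exact h2.symm

theorem Fr.mem_iff (h : Fr δ V W) (N₀ : VonNeumannAlgebra H) (z : K →L[ℂ] K) :
    z ∈ sumVN N₀ δ V W ↔ (∀ s, D δ s * z = z * D δ s) ∧
      ∀ t ∈ Set.centralizer (N₀ : Set (H →L[ℂ] H)), Bk V W t * z = z * Bk V W t := by
  have h0 : z ∈ sumVN N₀ δ V W ↔ z ∈ StarSubalgebra.centralizer ℂ (Gen N₀ δ V W) := Iff.rfl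
  rw [h0, StarSubalgebra.mem_centralizer_iff]
  constructor
  · intro hz
    exact ⟨fun s => (hz _ (Or.inl ⟨s, rfl⟩)).1, fun t ht => (hz _ (Or.inr ⟨t, ht, rfl⟩)).1⟩
  · rintro ⟨h1, h2⟩ g (⟨s, rfl⟩ | ⟨t, ht, rfl⟩)
    · exact ⟨h1 s, by rw [h.star_D]; exact h1 s⟩
    · refine ⟨h2 t ht, ?_⟩
      rw [h.star_Bk]
      exact h2 _ (centralizer_star N₀ ht)

theorem D_eq_Op (s : Fin r) : D δ s = Op δ V W (Pi.single s 1) 0 := by
  ext k
  rw [Op_apply, D_apply, Finset.sum_eq_single s]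
  · simp
  · intro s' _ hs
    rw [Pi.single_eq_of_ne hs, zero_mul, zero_smul]
  · intro hs
    exact absurd (Finset.mem_univ s) hs

theorem Bk_eq_Op (x : H →L[ℂ] H) : Bk V W x = Op δ V W 0 x := by
  ext k
  rw [Op_apply, Bk_apply]
  simp

theorem Fr.Op_mem (h : Fr δ V W) (N₀ : VonNeumannAlgebra H) (c : Fin r → ℂ) (x : H →L[ℂ] H)
    (hx : x ∈ N₀) : Op δ V W c x ∈ sumVN N₀ δ V W := by
  rw [h.mem_iff]
  constructor
  · intro s
    rw [D_eq_Op (V := V) (W := W), h.Op_mul, h.Op_mul, mul_comm, zero_mul, mul_zero]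
  · intro t ht
    rw [Bk_eq_Op (δ := δ), h.Op_mul, h.Op_mul, mul_comm]
    congr 1
    exact (ht x hx).symm

/-- the compression to `H` -/
noncomputable def Cp (V : H →L[ℂ] K) (W : K →L[ℂ] H) (z : K →L[ℂ] K) : H →L[ℂ] H := W ∘L z ∘L V

theorem Fr.Cp_mem (h : Fr δ V W) (N₀ : VonNeumannAlgebra H) (z : K →L[ℂ] K)
    (hz : z ∈ sumVN N₀ δ V W) : Cp V W z ∈ N₀ := by
  have h1 : Cp V W z ∈ Set.centralizer (Set.centralizer (N₀ : Set (H →L[ℂ] H))) := by
    intro t ht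
    ext y
    show t (W (z (V y))) = W (z (V (t y)))
    have h2 := ((h.mem_iff N₀ z).1 hz).2 t ht
    have h3 := congrArg (fun w : K →L[ℂ] K => W (w (V y))) h2
    have h4 : W (V (t (W (z (V y))))) = W (z (V (t (W (V y))))) := h3
    rwa [h.WV, h.WV] at h4
  rw [VonNeumannAlgebra.centralizer_centralizer] at h1
  exact h1

theorem Fr.Op_surj (h : Fr δ V W) (N₀ : VonNeumannAlgebra H) (z : K →L[ℂ] K)
    (hz : z ∈ sumVN N₀ δ V W) : Op δ V W (fun s => ⟪δ s, z (δ s)⟫_ℂ) (Cp V W z) = z := by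
  have hm := (h.mem_iff N₀ z).1 hz
  ext k
  apply h.ext
  · intro s
    rw [h.inner_Op]
    have h1 : D δ s (z k) = z (D δ s k) := congrArg (fun w : K →L[ℂ] K => w k) (hm.1 s)
    rw [D_apply, D_apply, map_smul] at h1
    have h2 := congrArg (fun w => ⟪δ s, w⟫_ℂ) h1
    simp only [inner_smul_right, h.on, if_pos] at h2
    rw [mul_one] at h2
    rw [h2]
    ring
  · rw [h.W_Op]
    have h1 : (1 : H →L[ℂ] H) ∈ Set.centralizer (N₀ : Set (H →L[ℂ] H)) := by
      intro x _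
      rw [mul_one, one_mul]
    have h2 : V (W (z k)) = z (V (W k)) := congrArg (fun w : K →L[ℂ] K => w k) (hm.2 1 h1)
    show W (z (V (W k))) = W (z k)
    rw [← h2, h.WV]

/-- the isomorphism `ℂ^r × N₀ ≃ N` -/
noncomputable def Fr.equiv (h : Fr δ V W) (N₀ : VonNeumannAlgebra H) :
    ((Fin r → ℂ) × Elt N₀) ≃⋆ₐ[ℂ] Elt (sumVN N₀ δ V W) where
  toFun z := ⟨Op δ V W z.1 (z.2 : H →L[ℂ] H), h.Op_mem N₀ _ _ z.2.2⟩
  invFun z := (fun s => ⟪δ s, (z : K →L[ℂ] K) (δ s)⟫_ℂ,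
    ⟨Cp V W (z : K →L[ℂ] K), h.Cp_mem N₀ _ z.2⟩)
  left_inv := by
    rintro ⟨c, x⟩
    refine Prod.ext ?_ ?_
    · funext s
      show ⟪δ s, Op δ V W c (x : H →L[ℂ] H) (δ s)⟫_ℂ = c s
      rw [h.inner_Op, h.on, if_pos rfl, mul_one]
    · apply Subtype.ext
      ext y
      show W (Op δ V W c (x : H →L[ℂ] H) (V y)) = (x : H →L[ℂ] H) y
      rw [h.W_Op, h.WV]
  right_inv z := Subtype.ext (h.Op_surj N₀ _ z.2)
  map_mul' a b := Subtype.ext (h.Op_mul _ _ _ _).symm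
  map_add' a b := Subtype.ext (Op_add _ _ _ _)
  map_star' a := Subtype.ext (h.star_Op _ _).symm
  map_smul' z a := Subtype.ext (Op_smul _ _ _)

theorem Fr.equiv_symm_fst (h : Fr δ V W) (N₀ : VonNeumannAlgebra H)
    (z : Elt (sumVN N₀ δ V W)) (s : Fin r) :
    ((h.equiv N₀).symm z).1 s = ⟪δ s, (z : K →L[ℂ] K) (δ s)⟫_ℂ := rfl

theorem Fr.equiv_symm_snd (h : Fr δ V W) (N₀ : VonNeumannAlgebra H)
    (z : Elt (sumVN N₀ δ V W)) :
    ((((h.equiv N₀).symm z).2 : Elt N₀) : H →L[ℂ] H) = Cp V W (z : K →L[ℂ] K) := rfl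

end frame

section exist

variable {H : Type} [NormedAddCommGroup H] [InnerProductSpace ℂ H] [CompleteSpace H]

/-- the model -/
abbrev KK (r : ℕ) (H : Type) : Type := WithLp 2 (EuclideanSpace ℂ (Fin r) × H)

/-- basis vectors -/
noncomputable def δ0 (r : ℕ) (H : Type) [NormedAddCommGroup H] (s : Fin r) : KK r H :=
  WithLp.toLp 2 (EuclideanSpace.single s 1, 0)

/-- the inclusion -/
noncomputable def V0 (r : ℕ) (H : Type) [NormedAddCommGroup H] [InnerProductSpace ℂ H] :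
    H →L[ℂ] KK r H :=
  LinearMap.mkContinuous
    { toFun := fun y => WithLp.toLp 2 (0, y)
      map_add' := by
        intro x y
        rw [← WithLp.toLp_add, Prod.mk_add_mk, add_zero]
      map_smul' := by
        intro c x
        rw [RingHom.id_apply, ← WithLp.toLp_smul, Prod.smul_mk, smul_zero] } 1 (by
    intro y
    show ‖(WithLp.toLp 2 (0, y) : KK r H)‖ ≤ 1 * ‖y‖
    rw [one_mul, WithLp.prod_norm_eq_of_L2]
    simp)

/-- the inclusion of the finite part -/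
noncomputable def L0 (r : ℕ) (H : Type) [NormedAddCommGroup H] [InnerProductSpace ℂ H] :
    EuclideanSpace ℂ (Fin r) →ₗ[ℂ] KK r H where
  toFun := fun y => WithLp.toLp 2 (y, 0)
  map_add' := by
    intro x y
    show (WithLp.toLp 2 (x + y, (0 : H)) : KK r H) = WithLp.toLp 2 ((x, (0 : H)) + (y, (0 : H)))
    rw [Prod.mk_add_mk, add_zero]
  map_smul' := by
    intro c x
    show (WithLp.toLp 2 (c • x, (0 : H)) : KK r H) = WithLp.toLp 2 (c • (x, (0 : H)))
    rw [Prod.smul_mk, smul_zero]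

theorem V0_apply (r : ℕ) (y : H) : V0 r H y = WithLp.toLp 2 (0, y) := rfl

/-- the projection -/
noncomputable def W0 (r : ℕ) (H : Type) [NormedAddCommGroup H] [InnerProductSpace ℂ H] :
    KK r H →L[ℂ] H := WithLp.sndL 2 ℂ (EuclideanSpace ℂ (Fin r)) H

theorem W0_apply (r : ℕ) (k : KK r H) : W0 r H k = k.snd := rfl

theorem fr0 (r : ℕ) : Fr (δ0 r H) (V0 r H) (W0 r H) := by
  refine ⟨?_, ?_, ?_, ?_, ?_⟩
  · intro s s'
    rw [WithLp.prod_inner_apply]
    show ⟪(EuclideanSpace.single s (1 : ℂ)), (EuclideanSpace.single s' (1 : ℂ))⟫_ℂ +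
      ⟪(0 : H), (0 : H)⟫_ℂ = _
    rw [inner_zero_left, add_zero, EuclideanSpace.inner_single_left]
    simp
  · intro y k
    rw [WithLp.prod_inner_apply]
    show ⟪(0 : EuclideanSpace ℂ (Fin r)), _⟫_ℂ + ⟪y, _⟫_ℂ = _
    rw [inner_zero_left, zero_add]
    rfl
  · intro y
    rfl
  · intro s
    rfl
  · intro k
    have h1 : ∀ s, ⟪δ0 r H s, k⟫_ℂ = k.fst s := by
      intro s
      rw [WithLp.prod_inner_apply]
      show ⟪(EuclideanSpace.single s (1 : ℂ)), _⟫_ℂ + ⟪(0 : H), _⟫_ℂ = _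
      rw [inner_zero_left, add_zero, EuclideanSpace.inner_single_left]
      simp
    simp only [h1]
    have h2 : (∑ s, k.fst s • δ0 r H s) = WithLp.toLp 2 (k.fst, 0) := by
      have h3 : k.fst = ∑ s, k.fst s • EuclideanSpace.single s (1 : ℂ) := by
        ext s'
        simp [Finset.sum_apply, Pi.single_apply]
      have h4 : (WithLp.toLp 2 (k.fst, 0) : KK r H) = L0 r H k.fst := rfl
      rw [h4]
      conv_rhs => rw [h3]
      rw [map_sum]
      refine Finset.sum_congr rfl fun s _ => ?_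
      rw [map_smul]
      rfl
    rw [h2, V0_apply, W0_apply, ← WithLp.toLp_add, Prod.mk_add_mk, add_zero, zero_add]
    rfl

/-- Direct sum of `ℂ^r` and `N₀` with a weighted trace. -/
theorem exists_sum (N₀ : VonNeumannAlgebra H) (T₀ : TracialState N₀) (r : ℕ) (w : Fin r → ℝ)
    (hw : ∀ s, 0 < w s) (c : ℝ) (hc : 0 < c) (hs : ∑ s, w s + c = 1) :
    ∃ (K : Type) (_ : NormedAddCommGroup K) (_ : InnerProductSpace ℂ K) (_ : CompleteSpace K)
      (N : VonNeumannAlgebra K) (T : TracialState N) (Φ : Elt N ≃⋆ₐ[ℂ] (Fin r → ℂ) × Elt N₀),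
      ∀ x, T.τ x = ∑ s, (w s : ℂ) * (Φ x).1 s + (c : ℂ) * T₀.τ (Φ x).2 := by
  classical
  have hF := fr0 (H := H) r
  let N := sumVN N₀ (δ0 r H) (V0 r H) (W0 r H)
  let Ψ := hF.equiv N₀
  let Φ : Elt N ≃⋆ₐ[ℂ] (Fin r → ℂ) × Elt N₀ := Ψ.symm
  let tl : Elt N →ₗ[ℂ] ℂ :=
    { toFun := fun x => ∑ s, (w s : ℂ) * (Φ x).1 s + (c : ℂ) * T₀.τ (Φ x).2
      map_add' := by
        intro x y
        rw [map_add, Prod.fst_add, Prod.snd_add, map_add, mul_add]
        have : ∑ s, (w s : ℂ) * ((Φ x).1 + (Φ y).1) s =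
            ∑ s, (w s : ℂ) * (Φ x).1 s + ∑ s, (w s : ℂ) * (Φ y).1 s := by
          rw [← Finset.sum_add_distrib]
          refine Finset.sum_congr rfl fun s _ => ?_
          rw [Pi.add_apply, mul_add]
        rw [this]
        ring
      map_smul' := by
        intro z x
        rw [map_smul, Prod.smul_fst, Prod.smul_snd, map_smul, RingHom.id_apply, smul_eq_mul,
          smul_eq_mul, mul_add, Finset.mul_sum]
        congr 1
        · refine Finset.sum_congr rfl fun s _ => ?_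
          rw [Pi.smul_apply, smul_eq_mul]
          ring
        · ring }
  have htl : ∀ x, tl x = ∑ s, (w s : ℂ) * (Φ x).1 s + (c : ℂ) * T₀.τ (Φ x).2 := fun _ => rfl
  obtain ⟨ξ₀, hξ₀, hT₀⟩ := T₀.normal
  let ξ : ℕ → KK r H := fun k => if hk : k < r then ((Real.sqrt (w ⟨k, hk⟩) : ℝ) : ℂ) • δ0 r H ⟨k, hk⟩
    else ((Real.sqrt c : ℝ) : ℂ) • V0 r H (ξ₀ (k - r))
  have hξ1 : ∀ k (hk : k < r), ξ k = ((Real.sqrt (w ⟨k, hk⟩) : ℝ) : ℂ) • δ0 r H ⟨k, hk⟩ := by
    intro k hk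
    show (if hk : k < r then _ else _) = _
    rw [dif_pos hk]
  have hξ2 : ∀ k, ξ (k + r) = ((Real.sqrt c : ℝ) : ℂ) • V0 r H (ξ₀ k) := by
    intro k
    show (if hk : k + r < r then _ else _) = _
    rw [dif_neg (by omega), Nat.add_sub_cancel]
  have hVn : ∀ y : H, ‖V0 r H y‖ = ‖y‖ := by
    intro y
    have h1 : ⟪V0 r H y, V0 r H y⟫_ℂ = ⟪y, y⟫_ℂ := by rw [hF.adj, hF.WV]
    rw [inner_self_eq_norm_sq_to_K, inner_self_eq_norm_sq_to_K] at h1
    have h2 : ‖V0 r H y‖ ^ 2 = ‖y‖ ^ 2 := by exact_mod_cast h1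
    exact (sq_eq_sq₀ (norm_nonneg _) (norm_nonneg _)).1 h2
  have hξs : Summable (fun k => ‖ξ k‖ ^ 2) := by
    rw [← summable_nat_add_iff r]
    refine (hξ₀.mul_left c).congr fun k => ?_
    rw [hξ2, norm_smul, hVn, Complex.norm_real, Real.norm_eq_abs, mul_pow, sq_abs,
      Real.sq_sqrt hc.le]
  have hsq : ∀ (a : ℝ), 0 ≤ a → ∀ (k : KK r H) (X : KK r H →L[ℂ] KK r H),
      ⟪((Real.sqrt a : ℝ) : ℂ) • k, X (((Real.sqrt a : ℝ) : ℂ) • k)⟫_ℂ = (a : ℂ) * ⟪k, X k⟫_ℂ := by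
    intro a ha k X
    rw [map_smul, inner_smul_left, inner_smul_right, Complex.conj_ofReal, ← mul_assoc,
      ← Complex.ofReal_mul, Real.mul_self_sqrt ha]
  have hnorm : ∀ x : Elt N, tl x = ∑' k, ⟪ξ k, (x : KK r H →L[ℂ] KK r H) (ξ k)⟫_ℂ := by
    intro x
    have hsum := summable_inner ξ ξ hξs hξs (x : KK r H →L[ℂ] KK r H)
    rw [← hsum.sum_add_tsum_nat_add r, htl]
    congr 1
    · rw [Finset.sum_range]
      refine Finset.sum_congr rfl fun s _ => ?_
      rw [hξ1 s s.2, hsq _ (hw _).le]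
      rfl
    · rw [hT₀, ← tsum_mul_left]
      congr 1
      funext k
      rw [hξ2, hsq _ hc.le, hF.adj]
      rfl
  let T : TracialState N :=
    { τ := tl
      normal := ⟨ξ, hξs, hnorm⟩
      map_one := by
        rw [htl, map_one, Prod.fst_one, Prod.snd_one, T₀.map_one, mul_one]
        simp only [Pi.one_apply, mul_one]
        exact_mod_cast congrArg (fun t : ℝ => (t : ℂ)) hs
      tracial := by
        intro x y
        rw [htl, htl, map_mul, map_mul, Prod.fst_mul, Prod.snd_mul, Prod.fst_mul, Prod.snd_mul,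
          T₀.tracial, mul_comm (Φ x).1]
      faithful := by
        intro x hx
        have hst : Φ (star x) = star (Φ x) := Φ.map_star' x
        rw [htl, map_mul, hst] at hx
        have hA := trAlg T₀
        have h1 : ∀ s, (0 : ℝ) ≤ w s * Complex.normSq ((Φ x).1 s) := fun s =>
          mul_nonneg (hw s).le (Complex.normSq_nonneg _)
        have h2 : (∑ s, w s * Complex.normSq ((Φ x).1 s) + c * n2 T₀.τ (Φ x).2 ^ 2 : ℝ) = 0 := by
          have e1 : T₀.τ (star (Φ x) * Φ x).2 = ((n2 T₀.τ (Φ x).2 ^ 2 : ℝ) : ℂ) := hA.eq_sq _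
          have e2 : ∀ s, (star (Φ x) * Φ x).1 s = ((Complex.normSq ((Φ x).1 s) : ℝ) : ℂ) := by
            intro s
            rw [Complex.normSq_eq_conj_mul_self]
            rfl
          rw [e1] at hx
          simp only [e2] at hx
          exact_mod_cast hx
        have h3 : 0 ≤ ∑ s, w s * Complex.normSq ((Φ x).1 s) := Finset.sum_nonneg fun s _ => h1 s
        have h4 : 0 ≤ c * n2 T₀.τ (Φ x).2 ^ 2 := by positivity
        have h5 : ∑ s, w s * Complex.normSq ((Φ x).1 s) = 0 := by linarith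
        have h6 : c * n2 T₀.τ (Φ x).2 ^ 2 = 0 := by linarith
        have h7 : Φ x = 0 := by
          refine Prod.ext ?_ ?_
          · funext s
            have h8 := (Finset.sum_eq_zero_iff_of_nonneg fun s _ => h1 s).1 h5 s (Finset.mem_univ s)
            rcases mul_eq_zero.1 h8 with h9 | h9
            · exact absurd h9 (hw s).ne'
            · exact Complex.normSq_eq_zero.1 h9
          · rcases mul_eq_zero.1 h6 with h9 | h9
            · exact absurd h9 hc.ne'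
            · apply hA.faithful
              rw [hA.eq_sq, h9]
              norm_num
        have h8 : Ψ (Φ x) = x := Ψ.apply_symm_apply x
        rw [← h8, h7, map_zero] }
  exact ⟨KK r H, inferInstance, inferInstance, inferInstance, N, T, Φ, htl⟩

end exist

end Pool.Agent.H800R.LFA
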