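import Mathlib
import Pool.Agent.H800R.LFA.Spec
import Pool.Agent.H800R.LFA.Sum

/-!
The finite level: independent pairs near a given pair of partitions of unity in `ℂ^r ⊕ N₀`.
-/

set_option autoImplicit false
set_option linter.unusedSectionVars false

open scoped InnerProductSpace Topology ComplexOrder BoundedContinuousFunction
open Filter

namespace Pool.Agent.H800R.LFA

open Pool.Agent.Helper278 Pool.Agent.Helper436.SN

/-! ### real numbers -/

theorem two_rigid {a b x y : ℝ} (ha : 1 / 2 < a) (hb : 1 / 2 < b) (hx : a ≤ x) (hy : b ≤ y)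
    (h1 : (1 - a) * b ≤ (1 - x) * y) (h2 : (1 - b) * a ≤ (1 - y) * x) : x = a ∧ y = b := by
  have hs : 0 ≤ x - a := by linarith
  have ht : 0 ≤ y - b := by linarith
  have e1 : (x - a) * b ≤ (1 - a) * (y - b) := by nlinarith [mul_nonneg hs ht]
  have e2 : (y - b) * a ≤ (1 - b) * (x - a) := by nlinarith [mul_nonneg hs ht]
  have e3 : x - a = 0 := by
    by_contra hne
    have hpos : 0 < x - a := lt_of_le_of_ne hs (Ne.symm hne)
    have f1 : (x - a) / 2 < (x - a) * b := by nlinarith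
    have f2 : (1 - a) * (y - b) ≤ (y - b) / 2 := by nlinarith
    have f3 : (y - b) / 2 ≤ (y - b) * a := by nlinarith
    have f4 : (1 - b) * (x - a) ≤ (x - a) / 2 := by nlinarith
    linarith
  have e4 : y - b = 0 := by
    by_contra hne
    have hpos : 0 < y - b := lt_of_le_of_ne ht (Ne.symm hne)
    have f3 : (y - b) / 2 ≤ (y - b) * a := by nlinarith
    rw [e3, mul_zero] at e2
    linarith
  constructor <;> linarith

theorem real_rigid {m n : ℕ} (α α' : Fin (m + 1) → ℝ) (β β' : Fin (n + 1) → ℝ)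
    (sα : ∑ i, α i = 1) (sα' : ∑ i, α' i = 1) (sβ : ∑ j, β j = 1) (sβ' : ∑ j, β' j = 1)
    (hα : 1 / 2 < α 0) (hβ : 1 / 2 < β 0)
    (h1 : ∀ i, α i * β 0 ≤ α' i * β' 0) (h2 : ∀ j, α 0 * β j ≤ α' 0 * β' j) :
    α' = α ∧ β' = β := by
  have hb : β 0 ≤ β' 0 := by
    have := Finset.sum_le_sum fun i (_ : i ∈ Finset.univ) => h1 i
    rw [← Finset.sum_mul, ← Finset.sum_mul, sα, sα', one_mul, one_mul] at this
    exact this
  have ha : α 0 ≤ α' 0 := by
    have := Finset.sum_le_sum fun i (_ : i ∈ Finset.univ) => h2 i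
    rw [← Finset.mul_sum, ← Finset.mul_sum, sβ, sβ', mul_one, mul_one] at this
    exact this
  have k1 : (1 - α 0) * β 0 ≤ (1 - α' 0) * β' 0 := by
    have := Finset.sum_le_sum fun (i : Fin m) (_ : i ∈ Finset.univ) => h1 i.succ
    rw [← Finset.sum_mul, ← Finset.sum_mul] at this
    rw [Fin.sum_univ_succ] at sα sα'
    have e1 : ∑ i : Fin m, α i.succ = 1 - α 0 := by linarith
    have e2 : ∑ i : Fin m, α' i.succ = 1 - α' 0 := by linarith
    rwa [e1, e2] at this
  have k2 : (1 - β 0) * α 0 ≤ (1 - β' 0) * α' 0 := by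
    have := Finset.sum_le_sum fun (i : Fin n) (_ : i ∈ Finset.univ) => h2 i.succ
    rw [← Finset.mul_sum, ← Finset.mul_sum] at this
    rw [Fin.sum_univ_succ] at sβ sβ'
    have e1 : ∑ i : Fin n, β i.succ = 1 - β 0 := by linarith
    have e2 : ∑ i : Fin n, β' i.succ = 1 - β' 0 := by linarith
    rw [e1, e2] at this
    linarith
  obtain ⟨ea, eb⟩ := two_rigid hα hβ ha hb k1 k2
  constructor
  · have hle : ∀ i ∈ Finset.univ, α i ≤ α' i := by
      intro i _
      have := h1 i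
      rw [eb] at this
      exact le_of_mul_le_mul_right this (by linarith)
    have := (Finset.sum_eq_sum_iff_of_le hle).1 (by rw [sα, sα'])
    funext i
    exact (this i (Finset.mem_univ i)).symm
  · have hle : ∀ i ∈ Finset.univ, β i ≤ β' i := by
      intro i _
      have := h2 i
      rw [ea] at this
      exact le_of_mul_le_mul_left this (by linarith)
    have := (Finset.sum_eq_sum_iff_of_le hle).1 (by rw [sβ, sβ'])
    funext i
    exact (this i (Finset.mem_univ i)).symm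

/-! ### partitions of unity near a perturbed normal element -/

/-- points of the circle with equally spaced real parts -/
noncomputable def zt (m : ℕ) (i : Fin m) : ℂ :=
  (((i : ℕ) : ℝ) / m : ℝ) + (Real.sqrt (1 - (((i : ℕ) : ℝ) / m) ^ 2) : ℝ) * Complex.I

theorem zt_star (m : ℕ) (i : Fin m) : star (zt m i) * zt m i = 1 := by
  have hm : (0 : ℝ) < m := by
    have := i.2
    have h0 : 0 < m := by omega
    exact_mod_cast h0
  have h1 : (((i : ℕ) : ℝ) / m) ≤ 1 := by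
    rw [div_le_one hm]
    exact_mod_cast i.2.le
  have h0 : 0 ≤ (((i : ℕ) : ℝ) / m) := by positivity
  have h2 : 0 ≤ 1 - (((i : ℕ) : ℝ) / m) ^ 2 := by nlinarith
  rw [Complex.star_def, ← Complex.normSq_eq_conj_mul_self]
  have h3 : Complex.normSq (zt m i) = 1 := by
    unfold zt
    rw [Complex.normSq_add_mul_I, Real.sq_sqrt h2]
    ring
  rw [h3, Complex.ofReal_one]

theorem zt_re (m : ℕ) (i : Fin m) :
    ((m : ℂ) / 2) * (zt m i + star (zt m i)) = (((i : ℕ) : ℝ) : ℂ) := by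
  have hm : (m : ℂ) ≠ 0 := by
    have := i.2
    have h0 : m ≠ 0 := by omega
    exact_mod_cast h0
  have h1 : zt m i + star (zt m i) = ((2 * (((i : ℕ) : ℝ) / m) : ℝ) : ℂ) := by
    rw [Complex.star_def, Complex.add_conj]
    unfold zt
    congr 2
    simp
  rw [h1]
  push_cast
  field_simp

section alg

variable {A : Type} [Ring A] [StarRing A] [Algebra ℂ A] [StarModule ℂ A] {τ : A →ₗ[ℂ] ℂ}

theorem n2_mul_proj_le (h : TrAlg τ) {e : A} (he : star e = e) (hi : e * e = e) (x : A) :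
    n2 τ (x * e) ≤ n2 τ x := by
  have := n2_proj_le h he hi (star x)
  rw [← h.n2_star (e * star x), star_mul, star_star, he] at this
  rwa [h.n2_star x] at this

theorem n2_sum_le (h : TrAlg τ) {ι : Type} (s : Finset ι) (f : ι → A) :
    n2 τ (∑ i ∈ s, f i) ≤ ∑ i ∈ s, n2 τ (f i) := by
  classical
  induction s using Finset.induction_on with
  | empty => rw [Finset.sum_empty, Finset.sum_empty, h.n2_zero]
  | insert a s ha ih =>
    rw [Finset.sum_insert ha, Finset.sum_insert ha]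
    exact (h.n2_add_le _ _).trans (add_le_add le_rfl ih)

theorem pvm_comb_mul {m : ℕ} {R : Fin m → A} (hR : PVM R) (d : Fin m → ℂ) (k : Fin m) :
    (∑ i, d i • R i) * R k = d k • R k := by
  rw [Finset.sum_mul, Finset.sum_eq_single k]
  · rw [smul_mul_assoc, hR.idem]
  · intro i _ hi
    rw [smul_mul_assoc, hR.orth i k hi, smul_zero]
  · intro hk
    exact absurd (Finset.mem_univ k) hk

theorem adjoin_le_of_mem {a b : A} (hb : b ∈ StarAlgebra.adjoin ℂ ({a} : Set A)) :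
    StarAlgebra.adjoin ℂ ({b} : Set A) ≤ StarAlgebra.adjoin ℂ ({a} : Set A) :=
  StarAlgebra.adjoin_le (Set.singleton_subset_iff.2 hb)

theorem wstar_mono {a b : A} (hb : b ∈ StarAlgebra.adjoin ℂ ({a} : Set A)) :
    wstar τ b ⊆ wstar τ a := by
  intro x hx ε hε
  obtain ⟨y, hy, hxy⟩ := hx ε hε
  exact ⟨y, adjoin_le_of_mem hb hy, hxy⟩

end alg

section vn

variable {H : Type} [NormedAddCommGroup H] [InnerProductSpace ℂ H] [CompleteSpace H]
variable {N : VonNeumannAlgebra H}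

theorem near_pvm (T : TracialState N) (m : ℕ) (hm : 0 < m) (R : Fin m → Elt N) (hR : PVM R)
    (a : Elt N) (η : ℝ) (ha : n2 T.τ (a - ∑ i, zt m i • R i) ≤ η) :
    ∃ P : Fin m → Elt N, PVM P ∧ (∀ i, P i ∈ wstar T.τ a) ∧
      ∀ i, n2 T.τ (P i - R i) ≤ 8 * (m : ℝ) ^ 2 * η := by
  have hA := trAlg T
  have hη : 0 ≤ η := (n2_nonneg _ _).trans ha
  have hmp : (0 : ℝ) < m := by exact_mod_cast hm
  set a' : Elt N := ((m : ℂ) / 2) • (a + star a) with ha'
  have hsc : star ((m : ℂ) / 2) = (m : ℂ) / 2 := by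
    rw [star_div₀]
    simp
  have hsa : star a' = a' := by
    rw [ha', star_smul, star_add, star_star, hsc, add_comm]
  have hmem : a' ∈ StarAlgebra.adjoin ℂ ({a} : Set (Elt N)) := by
    have h1 : a ∈ StarAlgebra.adjoin ℂ ({a} : Set (Elt N)) :=
      StarAlgebra.self_mem_adjoin_singleton ℂ a
    exact SMulMemClass.smul_mem _ (add_mem h1 (star_mem h1))
  obtain ⟨P, hP, hPw, hPn⟩ := spec_pvm T a' hsa m hm
  set b : Elt N := ∑ i : Fin m, ((((i : ℕ) : ℝ) : ℂ)) • R i with hb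
  have hbe : b = ((m : ℂ) / 2) • ((∑ i, zt m i • R i) + star (∑ i, zt m i • R i)) := by
    rw [star_sum, ← Finset.sum_add_distrib, Finset.smul_sum, hb]
    refine Finset.sum_congr rfl fun i _ => ?_
    rw [star_smul, hR.star_eq, ← add_smul, smul_smul, zt_re]
  have hab : n2 T.τ (a' - b) ≤ m * η := by
    rw [ha', hbe, ← smul_sub, n2_smul hA]
    have e1 : a + star a - ((∑ i, zt m i • R i) + star (∑ i, zt m i • R i)) =
        (a - ∑ i, zt m i • R i) + star (a - ∑ i, zt m i • R i) := by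
      rw [star_sub]; abel
    rw [e1]
    have h1 := hA.n2_add_le (a - ∑ i, zt m i • R i) (star (a - ∑ i, zt m i • R i))
    rw [hA.n2_star] at h1
    have h2 : ‖(m : ℂ) / 2‖ = m / 2 := by
      rw [norm_div, Complex.norm_natCast]
      norm_num
    rw [h2]
    calc (m : ℝ) / 2 * n2 T.τ (a - ∑ i, zt m i • R i + star (a - ∑ i, zt m i • R i))
        ≤ (m : ℝ) / 2 * (2 * η) :=
          mul_le_mul_of_nonneg_left (by linarith) (by positivity)
      _ = m * η := by ring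
  have hbk : ∀ k : Fin m, (b - (((k : ℕ) : ℝ) : ℂ) • 1) * R k = 0 := by
    intro k
    rw [sub_mul, hb, pvm_comb_mul hR, smul_mul_assoc, one_mul, sub_self]
  have hPR : ∀ i k, k ≠ i → n2 T.τ (P i * R k) ≤ 4 * (m * η) := by
    intro i k hki
    refine (hPn i k hki (R k)).trans ?_
    have e1 : (a' - (((k : ℕ) : ℝ) : ℂ) • 1) * R k = (a' - b) * R k := by
      have := hbk k
      rw [sub_mul, sub_eq_zero] at this
      rw [sub_mul, sub_mul, this]
    rw [e1]
    exact mul_le_mul_of_nonneg_left ((n2_mul_proj_le hA (hR.star_eq k) (hR.idem k) _).trans hab)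
      (by norm_num)
  refine ⟨P, hP, fun i => wstar_mono hmem (hPw i), fun i => ?_⟩
  have e1 : P i - R i = ∑ k, (P i * R k - P k * R i) := by
    rw [Finset.sum_sub_distrib, ← Finset.mul_sum, ← Finset.sum_mul, hR.sum, hP.sum, mul_one,
      one_mul]
  rw [e1]
  refine (n2_sum_le hA _ _).trans ?_
  have h2 : ∀ k ∈ (Finset.univ : Finset (Fin m)), n2 T.τ (P i * R k - P k * R i) ≤
      8 * (m * η) := by
    intro k _
    by_cases hki : k = i
    · rw [hki, sub_self, hA.n2_zero]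
      positivity
    · have h3 := hA.n2_sub_le (P i * R k) (P k * R i)
      have h4 := hPR i k hki
      have h5 := hPR k i (Ne.symm hki)
      linarith
  refine (Finset.sum_le_card_nsmul _ _ _ h2).trans (le_of_eq ?_)
  rw [Finset.card_univ, Fintype.card_fin, nsmul_eq_mul]
  ring

end vn

/-! ### the direct sum -/

section dsum

variable {H : Type} [NormedAddCommGroup H] [InnerProductSpace ℂ H] [CompleteSpace H]
variable {N₀ : VonNeumannAlgebra H} {T₀ : TracialState N₀}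
variable {K : Type} [NormedAddCommGroup K] [InnerProductSpace ℂ K] [CompleteSpace K]
variable {N : VonNeumannAlgebra K} {T : TracialState N}
variable {m n : ℕ}

/-- The data: `N ≃ ℂ^(m × n) ⊕ N₀` with weights. -/
structure Dec (T₀ : TracialState N₀) (T : TracialState N) (m n : ℕ)
    (Φ : Elt N ≃⋆ₐ[ℂ] (Fin (m * n) → ℂ) × Elt N₀) (w : Fin m × Fin n → ℝ) (c : ℝ) : Prop where
  w_pos : ∀ s, 0 < w s
  c_pos : 0 < c
  tr : ∀ x, T.τ x = ∑ s, (w (finProdFinEquiv.symm s) : ℂ) * (Φ x).1 s + (c : ℂ) * T₀.τ (Φ x).2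

variable {Φ : Elt N ≃⋆ₐ[ℂ] (Fin (m * n) → ℂ) × Elt N₀} {w : Fin m × Fin n → ℝ} {c : ℝ}

theorem Dec.n2_sq (h : Dec T₀ T m n Φ w c) (x : Elt N) : n2 T.τ x ^ 2 =
    ∑ s, w (finProdFinEquiv.symm s) * ‖(Φ x).1 s‖ ^ 2 + c * n2 T₀.τ (Φ x).2 ^ 2 := by
  have hst : Φ (star x) = star (Φ x) := Φ.map_star' x
  have h1 := (trAlg T).eq_sq x
  rw [h.tr, map_mul, hst] at h1
  have e1 : T₀.τ (star (Φ x) * Φ x).2 = ((n2 T₀.τ (Φ x).2 ^ 2 : ℝ) : ℂ) := (trAlg T₀).eq_sq _
  have e2 : ∀ s, (star (Φ x) * Φ x).1 s = ((‖(Φ x).1 s‖ ^ 2 : ℝ) : ℂ) := by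
    intro s
    rw [← Complex.normSq_eq_norm_sq, Complex.normSq_eq_conj_mul_self]
    rfl
  rw [e1] at h1
  simp only [e2] at h1
  exact_mod_cast h1.symm

theorem Dec.atom_le (h : Dec T₀ T m n Φ w c) (x : Elt N) (s : Fin (m * n)) :
    w (finProdFinEquiv.symm s) * ‖(Φ x).1 s‖ ^ 2 ≤ n2 T.τ x ^ 2 := by
  rw [h.n2_sq]
  have h1 := Finset.single_le_sum (s := Finset.univ)
    (f := fun s => w (finProdFinEquiv.symm s) * ‖(Φ x).1 s‖ ^ 2)
    (fun s _ => mul_nonneg (h.w_pos _).le (sq_nonneg _)) (Finset.mem_univ s)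
  have h2 : 0 ≤ c * n2 T₀.τ (Φ x).2 ^ 2 := mul_nonneg h.c_pos.le (sq_nonneg _)
  have h3 : w (finProdFinEquiv.symm s) * ‖(Φ x).1 s‖ ^ 2 ≤
    ∑ s, w (finProdFinEquiv.symm s) * ‖(Φ x).1 s‖ ^ 2 := h1
  linarith

theorem Dec.block_le (h : Dec T₀ T m n Φ w c) (x : Elt N) :
    c * n2 T₀.τ (Φ x).2 ^ 2 ≤ n2 T.τ x ^ 2 := by
  rw [h.n2_sq]
  have := Finset.sum_nonneg (s := Finset.univ)
    (f := fun s => w (finProdFinEquiv.symm s) * ‖(Φ x).1 s‖ ^ 2)
    (fun s _ => mul_nonneg (h.w_pos _).le (sq_nonneg _))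
  linarith

/-- nearby projections have the same atoms -/
theorem Dec.same_atom (h : Dec T₀ T m n Φ w c) {x y : Elt N} (hx : x * x = x) (hy : y * y = y)
    (s : Fin (m * n)) (hxy : n2 T.τ (x - y) ^ 2 < w (finProdFinEquiv.symm s)) :
    (Φ x).1 s = (Φ y).1 s := by
  have hid : ∀ z : Elt N, z * z = z → (Φ z).1 s = 0 ∨ (Φ z).1 s = 1 := by
    intro z hz
    have h1 := congrArg (fun v => (Φ v).1 s) hz
    simp only [map_mul, Prod.fst_mul, Pi.mul_apply] at h1
    have h2 : (Φ z).1 s * ((Φ z).1 s - 1) = 0 := by linear_combination h1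
    rcases mul_eq_zero.1 h2 with h3 | h3
    · exact Or.inl h3
    · exact Or.inr (sub_eq_zero.1 h3)
  have h1 := h.atom_le (x - y) s
  have h2 : (Φ (x - y)).1 s = (Φ x).1 s - (Φ y).1 s := by
    rw [map_sub]; rfl
  rw [h2] at h1
  have hw := h.w_pos (finProdFinEquiv.symm s)
  rcases hid x hx with e1 | e1 <;> rcases hid y hy with e2 | e2
  · rw [e1, e2]
  · exfalso
    rw [e1, e2, zero_sub, norm_neg, norm_one, one_pow, mul_one] at h1
    linarith
  · exfalso
    rw [e1, e2, sub_zero, norm_one, one_pow, mul_one] at h1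
    linarith
  · rw [e1, e2]

theorem pvm_snd {ι : Type} [Fintype ι] {P : ι → Elt N} (hP : PVM P) :
    PVM (fun i => (Φ (P i)).2) := by
  have hst : ∀ x, Φ (star x) = star (Φ x) := fun x => Φ.map_star' x
  refine ⟨?_, ?_, ?_, ?_⟩
  · intro i
    have h1 := congrArg (fun v => (Φ v).2) (hP.star_eq i)
    simp only [hst] at h1
    exact h1
  · intro i
    have h1 := congrArg (fun v => (Φ v).2) (hP.idem i)
    simp only [map_mul] at h1
    exact h1
  · intro i j hij
    have h1 := congrArg (fun v => (Φ v).2) (hP.orth i j hij)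
    simp only [map_mul, map_zero] at h1
    exact h1
  · have h1 := congrArg (fun v => (Φ v).2) hP.sum
    simp only [map_sum, map_one, Prod.snd_sum] at h1
    exact h1

/-- rows -/
noncomputable def rowP (Φ : Elt N ≃⋆ₐ[ℂ] (Fin (m * n) → ℂ) × Elt N₀) (p : Fin m → Elt N₀)
    (i : Fin m) : Elt N :=
  Φ.symm (fun s => if (finProdFinEquiv.symm s).1 = i then 1 else 0, p i)

/-- columns -/
noncomputable def colP (Φ : Elt N ≃⋆ₐ[ℂ] (Fin (m * n) → ℂ) × Elt N₀) (q : Fin n → Elt N₀)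
    (j : Fin n) : Elt N :=
  Φ.symm (fun s => if (finProdFinEquiv.symm s).2 = j then 1 else 0, q j)

theorem rowP_apply (p : Fin m → Elt N₀) (i : Fin m) : Φ (rowP Φ p i) =
    (fun s => if (finProdFinEquiv.symm s).1 = i then 1 else 0, p i) := Φ.apply_symm_apply _

theorem colP_apply (q : Fin n → Elt N₀) (j : Fin n) : Φ (colP Φ q j) =
    (fun s => if (finProdFinEquiv.symm s).2 = j then 1 else 0, q j) := Φ.apply_symm_apply _

theorem pvm_of_image {ι : Type} [Fintype ι] {P : ι → Elt N} (hP : PVM (fun i => Φ (P i))) :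
    PVM P := by
  have hst : ∀ x, Φ (star x) = star (Φ x) := fun x => Φ.map_star' x
  have hinj : Function.Injective Φ := Φ.injective
  refine ⟨?_, ?_, ?_, ?_⟩
  · intro i
    apply hinj
    rw [hst]
    exact hP.star_eq i
  · intro i
    apply hinj
    rw [map_mul]
    exact hP.idem i
  · intro i j hij
    apply hinj
    rw [map_mul, map_zero]
    exact hP.orth i j hij
  · apply hinj
    rw [map_sum, map_one]
    exact hP.sum

theorem pvm_prod {r : ℕ} {ι : Type} [Fintype ι] [DecidableEq ι] (f : Fin r → ι)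
    {p : ι → Elt N₀} (hp : PVM p) :
    PVM (fun i => ((fun s => if f s = i then 1 else 0, p i) : (Fin r → ℂ) × Elt N₀)) := by
  refine ⟨?_, ?_, ?_, ?_⟩
  · intro i
    refine Prod.ext ?_ (hp.star_eq i)
    funext s
    show star (if f s = i then (1 : ℂ) else 0) = if f s = i then (1 : ℂ) else 0
    split_ifs
    · exact star_one _
    · exact star_zero _
  · intro i
    refine Prod.ext ?_ (hp.idem i)
    funext s
    show (if f s = i then (1 : ℂ) else 0) * (if f s = i then (1 : ℂ) else 0) =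
      if f s = i then (1 : ℂ) else 0
    split_ifs <;> simp
  · intro i j hij
    refine Prod.ext ?_ (hp.orth i j hij)
    funext s
    show (if f s = i then (1 : ℂ) else 0) * (if f s = j then (1 : ℂ) else 0) = 0
    by_cases h1 : f s = i
    · rw [if_neg (show ¬ f s = j from fun h2 => hij (h1.symm.trans h2)), mul_zero]
    · rw [if_neg h1, zero_mul]
  · refine Prod.ext ?_ ?_
    · rw [Prod.fst_sum]
      funext s
      rw [Finset.sum_apply]
      show ∑ i, (if f s = i then (1 : ℂ) else 0) = 1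
      rw [Finset.sum_ite_eq Finset.univ (f s), if_pos (Finset.mem_univ _)]
    · rw [Prod.snd_sum]
      exact hp.sum

theorem pvm_row {p : Fin m → Elt N₀} (hp : PVM p) : PVM (rowP Φ p) := by
  apply pvm_of_image (Φ := Φ)
  simp only [rowP_apply]
  exact pvm_prod _ hp

theorem pvm_col {q : Fin n → Elt N₀} (hq : PVM q) : PVM (colP Φ q) := by
  apply pvm_of_image (Φ := Φ)
  simp only [colP_apply]
  exact pvm_prod _ hq

/-- the trace of the product of two projections -/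
theorem tau_mul_proj (hA : TrAlg T₀.τ) {x y : Elt N₀} (hx : star x = x) (hxi : x * x = x)
    (hy : star y = y) (hyi : y * y = y) : T₀.τ (x * y) = ((n2 T₀.τ (y * x) ^ 2 : ℝ) : ℂ) := by
  rw [← hA.eq_sq, star_mul, hx, hy, mul_assoc, ← mul_assoc y y x, hyi, ← mul_assoc,
    hA.comm (x * y) x, ← mul_assoc, hxi]

/-- the trace of a product of projections with the prescribed atoms -/
theorem Dec.tau_prod (h : Dec T₀ T m n Φ w c) {x y : Elt N} (i : Fin m) (j : Fin n)
    (hx : ∀ s, (Φ x).1 s = if (finProdFinEquiv.symm s).1 = i then 1 else 0)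
    (hy : ∀ s, (Φ y).1 s = if (finProdFinEquiv.symm s).2 = j then 1 else 0) :
    T.τ (x * y) = (w (i, j) : ℂ) + c * T₀.τ ((Φ x).2 * (Φ y).2) := by
  rw [h.tr, map_mul]
  congr 1
  rw [Finset.sum_eq_single (finProdFinEquiv (i, j))]
  · rw [Prod.fst_mul, Pi.mul_apply, hx, hy, Equiv.symm_apply_apply, if_pos rfl, if_pos rfl,
      mul_one, mul_one]
  · intro s _ hs
    rw [Prod.fst_mul, Pi.mul_apply, hx, hy]
    by_cases h1 : (finProdFinEquiv.symm s).1 = i
    · by_cases h2 : (finProdFinEquiv.symm s).2 = j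
      · exfalso
        apply hs
        rw [← Equiv.symm_apply_eq]
        exact Prod.ext h1 h2
      · rw [if_neg h2, mul_zero, mul_zero]
    · rw [if_neg h1, zero_mul, mul_zero]
  · intro hs
    exact absurd (Finset.mem_univ _) hs

/-- an exactly independent pair of partitions of unity with the prescribed atoms -/
theorem Dec.exact {m n : ℕ} {Φ : Elt N ≃⋆ₐ[ℂ] (Fin ((m + 1) * (n + 1)) → ℂ) × Elt N₀}
    {w : Fin (m + 1) × Fin (n + 1) → ℝ} (h : Dec T₀ T (m + 1) (n + 1) Φ w c)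
    (α : Fin (m + 1) → ℝ) (β : Fin (n + 1) → ℝ) (t : Fin (m + 1) → Fin (n + 1) → ℝ)
    (sα : ∑ i, α i = 1) (sβ : ∑ j, β j = 1) (hα : 1 / 2 < α 0) (hβ : 1 / 2 < β 0)
    (hw : ∀ i j, w (i, j) = α i * β j - c * t i j) (ht1 : ∀ i, t i 0 = 0) (ht2 : ∀ j, t 0 j = 0)
    (P : Fin (m + 1) → Elt N) (Q : Fin (n + 1) → Elt N) (hP : PVM P) (hQ : PVM Q)
    (hPQ : ∀ i j, T.τ (P i * Q j) = T.τ (P i) * T.τ (Q j))
    (hPa : ∀ i s, (Φ (P i)).1 s = if (finProdFinEquiv.symm s).1 = i then 1 else 0)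
    (hQa : ∀ j s, (Φ (Q j)).1 s = if (finProdFinEquiv.symm s).2 = j then 1 else 0) :
    ∀ i j, t i j = 0 → (Φ (P i)).2 * (Φ (Q j)).2 = 0 := by
  have hA := trAlg T
  have hA0 := trAlg T₀
  have hp := pvm_snd (Φ := Φ) hP
  have hq := pvm_snd (Φ := Φ) hQ
  have hreal : ∀ x : Elt N, star x = x → x * x = x → T.τ x = ((n2 T.τ x ^ 2 : ℝ) : ℂ) := by
    intro x h1 h2
    rw [← hA.eq_sq, h1, h2]
  let α' : Fin (m + 1) → ℝ := fun i => n2 T.τ (P i) ^ 2
  let β' : Fin (n + 1) → ℝ := fun j => n2 T.τ (Q j) ^ 2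
  let g : Fin (m + 1) → Fin (n + 1) → ℝ := fun i j =>
    n2 T₀.τ ((Φ (Q j)).2 * (Φ (P i)).2) ^ 2
  have hg : ∀ i j, α' i * β' j = α i * β j - c * t i j + c * g i j := by
    intro i j
    have h1 := h.tau_prod i j (hPa i) (hQa j)
    rw [hPQ, hreal _ (hP.star_eq i) (hP.idem i), hreal _ (hQ.star_eq j) (hQ.idem j),
      tau_mul_proj hA0 (hp.star_eq i) (hp.idem i) (hq.star_eq j) (hq.idem j), hw] at h1
    exact_mod_cast h1
  have sα' : ∑ i, α' i = 1 := by
    have h1 := congrArg T.τ hP.sum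
    rw [map_sum, T.map_one] at h1
    have h2 : ∀ i, T.τ (P i) = ((α' i : ℝ) : ℂ) := fun i => hreal _ (hP.star_eq i) (hP.idem i)
    simp only [h2] at h1
    exact_mod_cast h1
  have sβ' : ∑ j, β' j = 1 := by
    have h1 := congrArg T.τ hQ.sum
    rw [map_sum, T.map_one] at h1
    have h2 : ∀ i, T.τ (Q i) = ((β' i : ℝ) : ℂ) := fun i => hreal _ (hQ.star_eq i) (hQ.idem i)
    simp only [h2] at h1
    exact_mod_cast h1
  have hg0 : ∀ i j, 0 ≤ c * g i j := fun i j => mul_nonneg h.c_pos.le (sq_nonneg _)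
  obtain ⟨ea, eb⟩ := real_rigid α α' β β' sα sα' sβ sβ' hα hβ (fun i => by
    have h1 := hg i 0
    have h2 := hg0 i 0
    rw [ht1, mul_zero, sub_zero] at h1
    linarith) (fun j => by
    have h1 := hg 0 j
    have h2 := hg0 0 j
    rw [ht2, mul_zero, sub_zero] at h1
    linarith)
  intro i j htij
  have h1 := hg i j
  rw [ea, eb, htij, mul_zero, sub_zero] at h1
  have h2 : c * g i j = 0 := by linarith
  have h3 : g i j = 0 := by
    rcases mul_eq_zero.1 h2 with h4 | h4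
    · exact absurd h4 h.c_pos.ne'
    · exact h4
  have h4 : n2 T₀.τ ((Φ (Q j)).2 * (Φ (P i)).2) = 0 := pow_eq_zero_iff two_ne_zero |>.1 h3
  have h5 := n2_eq_zero hA0 h4
  have h6 := congrArg star h5
  rw [star_mul, star_zero] at h6
  have h7 : star ((Φ (P i)).2) = (Φ (P i)).2 := hp.star_eq i
  have h8 : star ((Φ (Q j)).2) = (Φ (Q j)).2 := hq.star_eq j
  rwa [h7, h8] at h6

/-- The finite level argument: an independent pair close to the model pair yields an exact zero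
pattern in `N₀` close to the given partitions of unity. -/
theorem Dec.level {m n : ℕ} {Φ : Elt N ≃⋆ₐ[ℂ] (Fin ((m + 1) * (n + 1)) → ℂ) × Elt N₀}
    {w : Fin (m + 1) × Fin (n + 1) → ℝ} (h : Dec T₀ T (m + 1) (n + 1) Φ w c)
    (α : Fin (m + 1) → ℝ) (β : Fin (n + 1) → ℝ) (t : Fin (m + 1) → Fin (n + 1) → ℝ)
    (sα : ∑ i, α i = 1) (sβ : ∑ j, β j = 1) (hα : 1 / 2 < α 0) (hβ : 1 / 2 < β 0)
    (hw : ∀ i j, w (i, j) = α i * β j - c * t i j) (ht1 : ∀ i, t i 0 = 0) (ht2 : ∀ j, t 0 j = 0)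
    (p : Fin (m + 1) → Elt N₀) (q : Fin (n + 1) → Elt N₀) (hp : PVM p) (hq : PVM q)
    (δ κ η : ℝ) (hδ : 0 < δ) (hκ1 : ∀ s, κ ^ 2 < w s) (hκ2 : κ ^ 2 < c * δ ^ 2)
    (hη1 : 8 * ((m + 1 : ℕ) : ℝ) ^ 2 * η ≤ κ) (hη2 : 8 * ((n + 1 : ℕ) : ℝ) ^ 2 * η ≤ κ)
    (a b : Elt N) (ha : n2 T.τ (a - ∑ i, zt (m + 1) i • rowP Φ p i) ≤ η)
    (hb : n2 T.τ (b - ∑ j, zt (n + 1) j • colP Φ q j) ≤ η) (hab : IndepPair T.τ a b) :
    ∃ (p' : Fin (m + 1) → Elt N₀) (q' : Fin (n + 1) → Elt N₀), PVM p' ∧ PVM q' ∧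
      (∀ i j, t i j = 0 → p' i * q' j = 0) ∧ (∀ i, n2 T₀.τ (p' i - p i) < δ) ∧
      ∀ j, n2 T₀.τ (q' j - q j) < δ := by
  have hR := pvm_row (Φ := Φ) hp
  have hS := pvm_col (Φ := Φ) hq
  obtain ⟨P, hP, hPw, hPR⟩ := near_pvm T (m + 1) (Nat.succ_pos m) _ hR a η ha
  obtain ⟨Q, hQ, hQw, hQS⟩ := near_pvm T (n + 1) (Nat.succ_pos n) _ hS b η hb
  have hPκ : ∀ i, n2 T.τ (P i - rowP Φ p i) ^ 2 ≤ κ ^ 2 := fun i =>
    pow_le_pow_left₀ (n2_nonneg _ _) ((hPR i).trans hη1) 2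
  have hQκ : ∀ j, n2 T.τ (Q j - colP Φ q j) ^ 2 ≤ κ ^ 2 := fun j =>
    pow_le_pow_left₀ (n2_nonneg _ _) ((hQS j).trans hη2) 2
  have hPa : ∀ i s, (Φ (P i)).1 s = if (finProdFinEquiv.symm s).1 = i then 1 else 0 := by
    intro i s
    rw [h.same_atom (hP.idem i) (hR.idem i) s (lt_of_le_of_lt (hPκ i) (hκ1 _)), rowP_apply]
  have hQa : ∀ j s, (Φ (Q j)).1 s = if (finProdFinEquiv.symm s).2 = j then 1 else 0 := by
    intro j s
    rw [h.same_atom (hQ.idem j) (hS.idem j) s (lt_of_le_of_lt (hQκ j) (hκ1 _)), colP_apply]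
  have hex := h.exact α β t sα sβ hα hβ hw ht1 ht2 P Q hP hQ
    (fun i j => hab _ (hPw i) _ (hQw j)) hPa hQa
  have hclose : ∀ x y : Elt N, n2 T.τ (x - y) ^ 2 ≤ κ ^ 2 →
      n2 T₀.τ ((Φ x).2 - (Φ y).2) < δ := by
    intro x y hxy
    have h1 := h.block_le (x - y)
    have h2 : (Φ (x - y)).2 = (Φ x).2 - (Φ y).2 := by rw [map_sub]; rfl
    rw [h2] at h1
    have h3 : c * n2 T₀.τ ((Φ x).2 - (Φ y).2) ^ 2 < c * δ ^ 2 := by linarith
    have h4 := lt_of_mul_lt_mul_left h3 h.c_pos.le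
    exact (pow_lt_pow_iff_left₀ (n2_nonneg _ _) hδ.le two_ne_zero).1 h4
  refine ⟨fun i => (Φ (P i)).2, fun j => (Φ (Q j)).2, pvm_snd hP, pvm_snd hQ, hex, ?_, ?_⟩
  · intro i
    have h1 := hclose _ _ (hPκ i)
    rw [rowP_apply] at h1
    exact h1
  · intro j
    have h1 := hclose _ _ (hQκ j)
    rw [colP_apply] at h1
    exact h1

end dsum

end Pool.Agent.H800R.LFA
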