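import Mathlib
import Pool.Agent.H800R.LFA.Level
import Pool.Agent.Helper278.Model

/-!
Part A of project LF: bad zero patterns in `N₀` give a tracial von Neumann algebra `ℂ^r ⊕ N₀` in
which independent unitaries of the ultrapower do not lift.
-/

set_option autoImplicit false
set_option linter.unusedSectionVars false

open scoped InnerProductSpace Topology ComplexOrder BoundedContinuousFunction
open Filter

namespace Pool.Agent.H800R.LFA

open Pool.Agent.Helper278 Pool.Agent.Helper436.SN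

section prep

variable {H : Type} [NormedAddCommGroup H] [InnerProductSpace ℂ H] [CompleteSpace H]
variable {N₀ : VonNeumannAlgebra H} {T₀ : TracialState N₀}

/-- adding a zero projection and relabelling -/
noncomputable def ext0 {I : Type} {m : ℕ} (e : I ≃ Fin m) (p : I → Elt N₀) (i : Fin (m + 1)) :
    Elt N₀ := Fin.cases 0 (fun k => p (e.symm k)) i

theorem ext0_zero {I : Type} {m : ℕ} (e : I ≃ Fin m) (p : I → Elt N₀) : ext0 e p 0 = 0 := rfl

theorem ext0_succ {I : Type} {m : ℕ} (e : I ≃ Fin m) (p : I → Elt N₀) (k : Fin m) :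
    ext0 e p k.succ = p (e.symm k) := rfl

theorem pvm_ext0 {I : Type} [Fintype I] {m : ℕ} (e : I ≃ Fin m) {p : I → Elt N₀} (hp : PVM p) :
    PVM (ext0 e p) := by
  refine ⟨?_, ?_, ?_, ?_⟩
  · intro i
    induction i using Fin.cases with
    | zero => exact star_zero _
    | succ k => exact hp.star_eq _
  · intro i
    induction i using Fin.cases with
    | zero => exact mul_zero _
    | succ k => exact hp.idem _
  · intro i j hij
    induction i using Fin.cases with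
    | zero => exact zero_mul _
    | succ k =>
      induction j using Fin.cases with
      | zero => exact mul_zero _
      | succ l =>
        refine hp.orth _ _ fun h => hij ?_
        have h' : k = l := e.symm.injective h
        rw [h']
  · rw [Fin.sum_univ_succ, ext0_zero, zero_add]
    simp only [ext0_succ]
    rw [Equiv.sum_comp e.symm p, hp.sum]

theorem pvm_restrict {I : Type} [Fintype I] {m : ℕ} (e : I ≃ Fin m) {p : Fin (m + 1) → Elt N₀}
    (hp : PVM p) (h0 : p 0 = 0) : PVM (fun i => p (e i).succ) := by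
  refine ⟨fun i => hp.star_eq _, fun i => hp.idem _, ?_, ?_⟩
  · intro i j hij
    refine hp.orth _ _ fun h => hij ?_
    exact e.injective (Fin.succ_injective _ h)
  · have h1 := hp.sum
    rw [Fin.sum_univ_succ, h0, zero_add] at h1
    rw [Equiv.sum_comp e (fun k => p k.succ), h1]

theorem tau_real (hA : TrAlg T₀.τ) {x y : Elt N₀} (hx : star x = x) (hxi : x * x = x)
    (hy : star y = y) (hyi : y * y = y) : T₀.τ (x * y) = (((T₀.τ (x * y)).re : ℝ) : ℂ) ∧
      0 ≤ (T₀.τ (x * y)).re ∧ (T₀.τ (x * y)).re ≤ 1 := by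
  have h1 := tau_mul_proj hA hx hxi hy hyi
  have h2 : (T₀.τ (x * y)).re = n2 T₀.τ (y * x) ^ 2 := by rw [h1, Complex.ofReal_re]
  refine ⟨by rw [h2]; exact h1, by rw [h2]; exact sq_nonneg _, ?_⟩
  rw [h2]
  have h3 : n2 T₀.τ (y * x) ≤ 1 := by
    refine (n2_proj_le hA hy hyi x).trans ?_
    have := n2_proj_le hA hx hxi 1
    rwa [mul_one, hA.n2_one] at this
  have h4 := n2_nonneg T₀.τ (y * x)
  nlinarith

end prep

section norms

variable {K : Type} [NormedAddCommGroup K] [InnerProductSpace ℂ K] [CompleteSpace K]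
variable {N : VonNeumannAlgebra K}

theorem norm_proj_le {x : Elt N} (hs : star x = x) (hi : x * x = x) : ‖x‖ ≤ 1 := by
  have h2 : star ((x : Elt N) : K →L[ℂ] K) * (x : K →L[ℂ] K) = (x : K →L[ℂ] K) := by
    have h3 : star x * x = x := by rw [hs, hi]
    exact congrArg Subtype.val h3
  have h4 : ‖(x : K →L[ℂ] K)‖ * ‖(x : K →L[ℂ] K)‖ = ‖(x : K →L[ℂ] K)‖ := by
    rw [← CStarRing.norm_star_mul_self, h2]
  have h5 : ‖(x : K →L[ℂ] K)‖ ≤ 1 := by
    by_contra hc
    push Not at hc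
    nlinarith
  exact h5

/-- a sequence of projections as a bounded sequence -/
noncomputable def mkP (x : ℕ → Elt N) (hx : ∀ n, ‖x n‖ ≤ 1) : ℕ →ᵇ Elt N :=
  BoundedContinuousFunction.ofNormedAddCommGroupDiscrete x 1 hx

theorem mkP_apply (x : ℕ → Elt N) (hx : ∀ n, ‖x n‖ ≤ 1) (n : ℕ) : mkP x hx n = x n := rfl

variable {Q : Type} [Ring Q] [StarRing Q] [Algebra ℂ Q] [StarModule ℂ Q]
  {π : (ℕ →ᵇ Elt N) →⋆ₐ[ℂ] Q}

theorem pvm_pi {ι : Type} [Fintype ι] {P : ι → (ℕ →ᵇ Elt N)}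
    (hP : ∀ n, PVM (fun i => P i n)) : PVM (fun i => π (P i)) := by
  refine ⟨?_, ?_, ?_, ?_⟩
  · intro i
    rw [← map_star]
    congr 1
    ext1 n
    exact (hP n).star_eq i
  · intro i
    rw [← map_mul]
    congr 1
    ext1 n
    exact (hP n).idem i
  · intro i j hij
    rw [← map_mul, ← map_zero π]
    congr 1
    ext1 n
    exact (hP n).orth i j hij
  · rw [← map_sum, ← map_one π]
    congr 1
    ext1 n
    rw [BoundedContinuousFunction.coe_sum, Finset.sum_apply]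
    exact (hP n).sum

end norms

section main

variable {H : Type} [NormedAddCommGroup H] [InnerProductSpace ℂ H] [CompleteSpace H]
variable {N₀ : VonNeumannAlgebra H} {T₀ : TracialState N₀}
variable {K : Type} [NormedAddCommGroup K] [InnerProductSpace ℂ K] [CompleteSpace K]
variable {N : VonNeumannAlgebra K} {T : TracialState N}

/-- The ultrapower argument. -/
theorem fails {m n : ℕ} {Φ : Elt N ≃⋆ₐ[ℂ] (Fin ((m + 1) * (n + 1)) → ℂ) × Elt N₀}
    {w : Fin (m + 1) × Fin (n + 1) → ℝ} {c : ℝ} (h : Dec T₀ T (m + 1) (n + 1) Φ w c)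
    (α : Fin (m + 1) → ℝ) (β : Fin (n + 1) → ℝ) (t : Fin (m + 1) → Fin (n + 1) → ℝ)
    (sα : ∑ i, α i = 1) (sβ : ∑ j, β j = 1) (hα : 1 / 2 < α 0) (hβ : 1 / 2 < β 0)
    (hw : ∀ i j, w (i, j) = α i * β j - c * t i j) (ht1 : ∀ i, t i 0 = 0) (ht2 : ∀ j, t 0 j = 0)
    (p : ℕ → Fin (m + 1) → Elt N₀) (q : ℕ → Fin (n + 1) → Elt N₀) (hp : ∀ k, PVM (p k))
    (hq : ∀ k, PVM (q k))
    (hlim : ∀ i j, Tendsto (fun k => T₀.τ (p k i * q k j)) atTop (𝓝 ((t i j : ℝ) : ℂ)))
    (δ : ℝ) (hδ : 0 < δ)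
    (hbad : ∀ (k : ℕ) (p' : Fin (m + 1) → Elt N₀) (q' : Fin (n + 1) → Elt N₀), PVM p' → PVM q' →
      (∀ i j, t i j = 0 → p' i * q' j = 0) → (∀ i, n2 T₀.τ (p' i - p k i) < δ) →
      (∀ j, n2 T₀.τ (q' j - q k j) < δ) → False) : IndepLiftingFails (Elt N) T.τ := by
  classical
  intro U hU Q _ _ _ _ π σ hπ
  have hA := trAlg T
  have hA0 := trAlg T₀
  have hUle : (U : Filter ℕ) ≤ atTop := by
    rcases Ultrafilter.le_cofinite_or_eq_pure U with h1 | ⟨k, hk⟩
    · rwa [Nat.cofinite_eq_atTop] at h1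
    · exfalso
      apply hU k
      rw [hk]
      exact Ultrafilter.mem_pure.2 rfl
  have hR : ∀ k, PVM (rowP Φ (p k)) := fun k => pvm_row (hp k)
  have hS : ∀ k, PVM (colP Φ (q k)) := fun k => pvm_col (hq k)
  let R : Fin (m + 1) → (ℕ →ᵇ Elt N) := fun i => mkP (fun k => rowP Φ (p k) i)
    (fun k => norm_proj_le ((hR k).star_eq i) ((hR k).idem i))
  let S : Fin (n + 1) → (ℕ →ᵇ Elt N) := fun j => mkP (fun k => colP Φ (q k) j)
    (fun k => norm_proj_le ((hS k).star_eq j) ((hS k).idem j))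
  have hRQ : PVM (fun i => π (R i)) := pvm_pi fun k => hR k
  have hSQ : PVM (fun j => π (S j)) := pvm_pi fun k => hS k
  -- limits of the traces
  have hRa : ∀ k i s, (Φ (rowP Φ (p k) i)).1 s =
      if (finProdFinEquiv.symm s).1 = i then 1 else 0 := by
    intro k i s; rw [rowP_apply]
  have hSa : ∀ k j s, (Φ (colP Φ (q k) j)).1 s =
      if (finProdFinEquiv.symm s).2 = j then 1 else 0 := by
    intro k j s; rw [colP_apply]
  have hRS : ∀ i j, σ (π (R i) * π (S j)) = ((α i * β j : ℝ) : ℂ) := by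
    intro i j
    rw [← map_mul]
    refine tendsto_nhds_unique (hπ.trace (R i * S j)) ?_
    have h1 : (fun k => T.τ ((R i * S j) k)) =
        fun k => (w (i, j) : ℂ) + c * T₀.τ (p k i * q k j) := by
      funext k
      have h2 := h.tau_prod i j (hRa k i) (hSa k j)
      rw [rowP_apply, colP_apply] at h2
      exact h2
    rw [h1]
    have h3 := ((hlim i j).mono_left hUle).const_mul (c : ℂ)
    have h4 := h3.const_add (w (i, j) : ℂ)
    have h5 : (w (i, j) : ℂ) + c * ((t i j : ℝ) : ℂ) = ((α i * β j : ℝ) : ℂ) := by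
      rw [hw]
      push_cast
      ring
    rwa [h5] at h4
  have hσ := sigma_trAlg hπ
  have hσe : ∀ x, sigmaL hπ x = σ x := fun _ => rfl
  have hRσ : ∀ i, σ (π (R i)) = ((α i : ℝ) : ℂ) := by
    intro i
    have h1 : π (R i) = ∑ j, π (R i) * π (S j) := by
      rw [← Finset.mul_sum, hSQ.sum, mul_one]
    rw [← hσe, h1, map_sum]
    simp only [hσe, hRS]
    rw [← Complex.ofReal_sum, ← Finset.mul_sum, sβ, mul_one]
  have hSσ : ∀ j, σ (π (S j)) = ((β j : ℝ) : ℂ) := by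
    intro j
    have h1 : π (S j) = ∑ i, π (R i) * π (S j) := by
      rw [← Finset.sum_mul, hRQ.sum, one_mul]
    rw [← hσe, h1, map_sum]
    simp only [hσe, hRS]
    rw [← Complex.ofReal_sum, ← Finset.sum_mul, sα, one_mul]
  refine ⟨∑ i, zt (m + 1) i • π (R i), unitary_of_pvm _ hRQ _ (zt_star _),
    ∑ j, zt (n + 1) j • π (S j), unitary_of_pvm _ hSQ _ (zt_star _), ?_, ?_⟩
  · have h1 := indepPair_of_pvm hσ (fun i => π (R i)) (fun j => π (S j)) hRQ hSQ (fun i j => by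
      rw [hσe, hσe, hσe, hRS, hRσ, hSσ]
      push_cast
      rfl) (zt (m + 1)) (zt (n + 1))
    exact h1
  · intro a b ha hb
    -- constants
    obtain ⟨κ, hκ, hκ1, hκ2⟩ : ∃ κ : ℝ, 0 < κ ∧ (∀ s, κ ^ 2 < w s) ∧ κ ^ 2 < c * δ ^ 2 := by
      have hc1 : 0 < c * δ ^ 2 := mul_pos h.c_pos (by positivity)
      obtain ⟨s₀, -, hs₀⟩ := Finset.exists_min_image (Finset.univ : Finset (Fin (m + 1) × Fin (n + 1)))
        w ⟨(0, 0), Finset.mem_univ _⟩
      have hw0 := h.w_pos
      have hws : ∀ s, 0 < w s := hw0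
      let μ := min (w s₀) (c * δ ^ 2)
      have hμ : 0 < μ := lt_min (hws s₀) hc1
      refine ⟨Real.sqrt (μ / 2), Real.sqrt_pos.2 (half_pos hμ), ?_, ?_⟩
      · intro s
        rw [Real.sq_sqrt (half_pos hμ).le]
        have h1 : μ ≤ w s := (min_le_left _ _).trans (hs₀ s (Finset.mem_univ s))
        linarith
      · rw [Real.sq_sqrt (half_pos hμ).le]
        have h1 : μ ≤ c * δ ^ 2 := min_le_right _ _
        linarith
    let L : ℝ := 8 * ((m + 1 : ℕ) : ℝ) ^ 2 + 8 * ((n + 1 : ℕ) : ℝ) ^ 2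
    have hL : 0 < L := by positivity
    let η : ℝ := κ / L
    have hη : 0 < η := div_pos hκ hL
    have hLη : L * η = κ := mul_div_cancel₀ _ hL.ne'
    have hη1 : 8 * ((m + 1 : ℕ) : ℝ) ^ 2 * η ≤ κ := by
      rw [← hLη]
      apply mul_le_mul_of_nonneg_right _ hη.le
      have : 0 ≤ 8 * ((n + 1 : ℕ) : ℝ) ^ 2 := by positivity
      show 8 * ((m + 1 : ℕ) : ℝ) ^ 2 ≤ 8 * ((m + 1 : ℕ) : ℝ) ^ 2 + 8 * ((n + 1 : ℕ) : ℝ) ^ 2
      linarith
    have hη2 : 8 * ((n + 1 : ℕ) : ℝ) ^ 2 * η ≤ κ := by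
      rw [← hLη]
      apply mul_le_mul_of_nonneg_right _ hη.le
      have : 0 ≤ 8 * ((m + 1 : ℕ) : ℝ) ^ 2 := by positivity
      show 8 * ((n + 1 : ℕ) : ℝ) ^ 2 ≤ 8 * ((m + 1 : ℕ) : ℝ) ^ 2 + 8 * ((n + 1 : ℕ) : ℝ) ^ 2
      linarith
    have hcomb : ∀ {l : ℕ} (X : Fin l → (ℕ →ᵇ Elt N)) (d : Fin l → ℂ) (k : ℕ),
        (∑ i, d i • X i) k = ∑ i, d i • X i k := by
      intro l X d k
      rw [BoundedContinuousFunction.coe_sum, Finset.sum_apply]
      rfl
    have ha' : π a = π (∑ i, zt (m + 1) i • R i) := by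
      rw [ha, map_sum]
      refine Finset.sum_congr rfl fun i _ => ?_
      rw [map_smul]
    have hb' : π b = π (∑ j, zt (n + 1) j • S j) := by
      rw [hb, map_sum]
      refine Finset.sum_congr rfl fun i _ => ?_
      rw [map_smul]
    rw [pi_eq_iff hπ] at ha' hb'
    have ea := ha'.eventually (gt_mem_nhds hη)
    have eb := hb'.eventually (gt_mem_nhds hη)
    filter_upwards [ea, eb] with k hka hkb
    intro hind
    rw [hcomb] at hka hkb
    obtain ⟨p', q', hp', hq', hz, hd1, hd2⟩ := h.level α β t sα sβ hα hβ hw ht1 ht2 (p k) (q k)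
      (hp k) (hq k) δ κ η hδ hκ1 hκ2 hη1 hη2 (a k) (b k) hka.le hkb.le hind
    exact hbad k p' q' hp' hq' hz hd1 hd2

theorem fails3 (hf : IndepLiftingFails (Elt N) T.τ) : LiftingFails 3 (Elt N) T.τ := by
  intro U hU Q _ _ _ _ π σ hπ
  obtain ⟨u, hu, v, hv, huv, hab⟩ := hf U hU Q π σ hπ
  refine ⟨u, hu, v, hv, ?_, ?_⟩
  · have h1 : IndepPair (sigmaL hπ) u v := huv
    exact kindep_of_indep (sigma_trAlg hπ) h1 3 (by norm_num) le_rfl
  · intro a b ha hb hmem
    have h1 := hab a b ha hb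
    obtain ⟨k, hk1, hk2⟩ := U.nonempty_of_mem (Filter.inter_mem hmem h1)
    exact hk2 (indep_of_kindep (trAlg T) hk1)

theorem hyper_nonprincipal (n : ℕ) : {n} ∉ (Filter.hyperfilter ℕ : Ultrafilter ℕ) := by
  intro h
  have h1 : ({n} : Set ℕ)ᶜ ∈ (Filter.hyperfilter ℕ : Ultrafilter ℕ) :=
    Filter.compl_mem_hyperfilter_of_finite (Set.finite_singleton n)
  exact (Ultrafilter.compl_mem_iff_notMem.1 h1) h

theorem not_lifts (hf : IndepLiftingFails (Elt N) T.τ) : ¬ LiftsIndependentPairs (Elt N) T.τ := by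
  intro hL
  obtain ⟨Q, _, _, _, _, π, σ, hπ⟩ := exists_ultrapower T (Filter.hyperfilter ℕ)
  obtain ⟨u, hu, v, hv, huv, hab⟩ := hf _ hyper_nonprincipal Q π σ hπ
  obtain ⟨a, b, -, -, ha, hb, hi⟩ := hL _ hyper_nonprincipal Q π σ hπ u hu v hv huv
  obtain ⟨k, hk⟩ := Ultrafilter.nonempty_of_mem (hab a b ha hb)
  exact hk (hi k)

theorem not_lifts3 (hf : IndepLiftingFails (Elt N) T.τ) :
    ¬ LiftsKIndependentPairs 3 (Elt N) T.τ := by
  intro hL
  obtain ⟨Q, _, _, _, _, π, σ, hπ⟩ := exists_ultrapower T (Filter.hyperfilter ℕ)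
  obtain ⟨u, hu, v, hv, huv, hab⟩ := hf _ hyper_nonprincipal Q π σ hπ
  have h1 : IndepPair (sigmaL hπ) u v := huv
  obtain ⟨a, b, -, -, ha, hb, hi⟩ := hL _ hyper_nonprincipal Q π σ hπ u hu v hv
    (fun j hj1 hj3 => kindep_of_indep (sigma_trAlg hπ) h1 j hj1 hj3)
  obtain ⟨k, hk⟩ := Ultrafilter.nonempty_of_mem (hab a b ha hb)
  exact hk (indep_of_kindep (trAlg T) (hi k 2 (by norm_num) (by norm_num)))

end main

theorem s_A : S_A := by
  classical
  intro H _ _ _ N₀ T₀ I J _ _ Zs p q δ hB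
  have hA0 := trAlg T₀
  obtain ⟨m, hm⟩ : ∃ m, Fintype.card I = m := ⟨_, rfl⟩
  obtain ⟨n, hn⟩ : ∃ n, Fintype.card J = n := ⟨_, rfl⟩
  let eI : I ≃ Fin m := Fintype.equivFinOfCardEq hm
  let eJ : J ≃ Fin n := Fintype.equivFinOfCardEq hn
  let P : ℕ → Fin (m + 1) → Elt N₀ := fun k => ext0 eI (p k)
  let Q : ℕ → Fin (n + 1) → Elt N₀ := fun k => ext0 eJ (q k)
  have hP : ∀ k, PVM (P k) := fun k => pvm_ext0 eI (hB.pvm_p k)
  have hQ : ∀ k, PVM (Q k) := fun k => pvm_ext0 eJ (hB.pvm_q k)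
  have hreal := fun k i j => tau_real (T₀ := T₀) hA0 ((hP k).star_eq i) ((hP k).idem i)
    ((hQ k).star_eq j) ((hQ k).idem j)
  -- a convergent subsequence
  let g : ℕ → (Fin (m + 1) × Fin (n + 1)) → ℝ := fun k s => (T₀.τ (P k s.1 * Q k s.2)).re
  have hg : ∀ k, g k ∈ Set.Icc (0 : (Fin (m + 1) × Fin (n + 1)) → ℝ) 1 := fun k =>
    ⟨fun s => (hreal k s.1 s.2).2.1, fun s => (hreal k s.1 s.2).2.2⟩
  obtain ⟨t', ht', φ, hφ, hlim⟩ := isCompact_Icc.tendsto_subseq hg
  let t : Fin (m + 1) → Fin (n + 1) → ℝ := fun i j => t' (i, j)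
  have hlimr : ∀ i j, Tendsto (fun k => (T₀.τ (P (φ k) i * Q (φ k) j)).re) atTop (𝓝 (t i j)) := by
    intro i j
    exact (tendsto_pi_nhds.1 hlim) (i, j)
  have hlimc : ∀ i j, Tendsto (fun k => T₀.τ (P (φ k) i * Q (φ k) j)) atTop
      (𝓝 ((t i j : ℝ) : ℂ)) := by
    intro i j
    have h1 := (Complex.continuous_ofReal.tendsto (t i j)).comp (hlimr i j)
    refine h1.congr fun k => ?_
    exact ((hreal (φ k) i j).1).symm
  have ht0 : ∀ i j, 0 ≤ t i j := fun i j => ht'.1 (i, j)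
  have ht1 : ∀ i j, t i j ≤ 1 := fun i j => ht'.2 (i, j)
  have hti : ∀ i, t i 0 = 0 := by
    intro i
    refine tendsto_nhds_unique (hlimr i 0) ?_
    have : (fun k => (T₀.τ (P (φ k) i * Q (φ k) 0)).re) = fun _ => 0 := by
      funext k
      show (T₀.τ (P (φ k) i * ext0 eJ (q (φ k)) 0)).re = 0
      rw [ext0_zero, mul_zero, map_zero, Complex.zero_re]
    rw [this]
    exact tendsto_const_nhds
  have htj : ∀ j, t 0 j = 0 := by
    intro j
    refine tendsto_nhds_unique (hlimr 0 j) ?_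
    have : (fun k => (T₀.τ (P (φ k) 0 * Q (φ k) j)).re) = fun _ => 0 := by
      funext k
      show (T₀.τ (ext0 eI (p (φ k)) 0 * Q (φ k) j)).re = 0
      rw [ext0_zero, zero_mul, map_zero, Complex.zero_re]
    rw [this]
    exact tendsto_const_nhds
  have htz : ∀ i j, Zs i j → t (eI i).succ (eJ j).succ = 0 := by
    intro i j hz
    have h1 := (hB.zero i j hz).comp hφ.tendsto_atTop
    have h2 := hlimc (eI i).succ (eJ j).succ
    have h3 : (fun k => T₀.τ (P (φ k) (eI i).succ * Q (φ k) (eJ j).succ)) =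
        (fun k => T₀.τ (p k i * q k j)) ∘ φ := by
      funext k
      show T₀.τ (ext0 eI (p (φ k)) (eI i).succ * ext0 eJ (q (φ k)) (eJ j).succ) = _
      rw [ext0_succ, ext0_succ, Equiv.symm_apply_apply, Equiv.symm_apply_apply]
      rfl
    rw [h3] at h2
    have h4 := tendsto_nhds_unique h2 h1
    exact_mod_cast h4
  have hts : ∑ i, ∑ j, t i j = 1 := by
    have h1 : Tendsto (fun k => ∑ i, ∑ j, (T₀.τ (P (φ k) i * Q (φ k) j)).re) atTop
        (𝓝 (∑ i, ∑ j, t i j)) :=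
      tendsto_finsetSum _ fun i _ => tendsto_finsetSum _ fun j _ => hlimr i j
    have h2 : (fun k => ∑ i, ∑ j, (T₀.τ (P (φ k) i * Q (φ k) j)).re) = fun _ => 1 := by
      funext k
      simp only [← Complex.re_sum, ← map_sum, ← Finset.mul_sum, ← Finset.sum_mul]
      rw [(hP _).sum, (hQ _).sum, one_mul, T₀.map_one, Complex.one_re]
    rw [h2] at h1
    exact tendsto_nhds_unique h1 tendsto_const_nhds
  -- weights
  let A : ℝ := 1 / (4 * ((m : ℝ) + 1))
  let B : ℝ := 1 / (4 * ((n : ℝ) + 1))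
  have hA : 0 < A := by positivity
  have hBp : 0 < B := by positivity
  have hmA : (m : ℝ) * A ≤ 1 / 4 := by
    show (m : ℝ) * (1 / (4 * ((m : ℝ) + 1))) ≤ 1 / 4
    rw [mul_one_div, div_le_div_iff₀ (by positivity) (by norm_num)]
    linarith
  have hnB : (n : ℝ) * B ≤ 1 / 4 := by
    show (n : ℝ) * (1 / (4 * ((n : ℝ) + 1))) ≤ 1 / 4
    rw [mul_one_div, div_le_div_iff₀ (by positivity) (by norm_num)]
    linarith
  have hA4 : A ≤ 1 / 4 := by
    show 1 / (4 * ((m : ℝ) + 1)) ≤ 1 / 4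
    apply one_div_le_one_div_of_le (by norm_num)
    have : (0 : ℝ) ≤ m := Nat.cast_nonneg m
    linarith
  have hB4 : B ≤ 1 / 4 := by
    show 1 / (4 * ((n : ℝ) + 1)) ≤ 1 / 4
    apply one_div_le_one_div_of_le (by norm_num)
    have : (0 : ℝ) ≤ n := Nat.cast_nonneg n
    linarith
  let α : Fin (m + 1) → ℝ := Fin.cons (1 - m * A) (fun _ => A)
  let β : Fin (n + 1) → ℝ := Fin.cons (1 - n * B) (fun _ => B)
  have hα0 : α 0 = 1 - m * A := rfl
  have hβ0 : β 0 = 1 - n * B := rfl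
  have sα : ∑ i, α i = 1 := by
    rw [Fin.sum_univ_succ]
    show (1 - m * A) + ∑ _i : Fin m, A = 1
    rw [Finset.sum_const, Finset.card_univ, Fintype.card_fin, nsmul_eq_mul]
    ring
  have sβ : ∑ j, β j = 1 := by
    rw [Fin.sum_univ_succ]
    show (1 - n * B) + ∑ _j : Fin n, B = 1
    rw [Finset.sum_const, Finset.card_univ, Fintype.card_fin, nsmul_eq_mul]
    ring
  have hαA : ∀ i, A ≤ α i := by
    intro i
    induction i using Fin.cases with
    | zero => rw [hα0]; linarith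
    | succ k => exact le_rfl
  have hβB : ∀ j, B ≤ β j := by
    intro j
    induction j using Fin.cases with
    | zero => rw [hβ0]; linarith
    | succ k => exact le_rfl
  let c : ℝ := A * B / 2
  have hc : 0 < c := by positivity
  let w : Fin (m + 1) × Fin (n + 1) → ℝ := fun s => α s.1 * β s.2 - c * t s.1 s.2
  have hw : ∀ s, 0 < w s := by
    intro s
    have h1 : A * B ≤ α s.1 * β s.2 :=
      mul_le_mul (hαA _) (hβB _) hBp.le (hA.le.trans (hαA _))
    have h2 : c * t s.1 s.2 ≤ c * 1 := mul_le_mul_of_nonneg_left (ht1 _ _) hc.le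
    have h3 : 0 < A * B := mul_pos hA hBp
    show 0 < α s.1 * β s.2 - c * t s.1 s.2
    have h4 : c = A * B / 2 := rfl
    linarith
  have hsum : ∑ s : Fin ((m + 1) * (n + 1)), w (finProdFinEquiv.symm s) + c = 1 := by
    rw [Equiv.sum_comp finProdFinEquiv.symm w, Fintype.sum_prod_type]
    have h1 : ∑ i, ∑ j, w (i, j) = ∑ i, ∑ j, (α i * β j) - c * ∑ i, ∑ j, t i j := by
      rw [Finset.mul_sum, ← Finset.sum_sub_distrib]
      refine Finset.sum_congr rfl fun i _ => ?_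
      rw [Finset.mul_sum, ← Finset.sum_sub_distrib]
    have h2 : ∑ i, ∑ j, (α i * β j) = 1 := by
      simp only [← Finset.mul_sum, sβ, mul_one, sα]
    rw [h1, h2, hts]
    ring
  obtain ⟨K, i1, i2, i3, N, T, Φ, hΦ⟩ := exists_sum N₀ T₀ ((m + 1) * (n + 1))
    (fun s => w (finProdFinEquiv.symm s)) (fun s => hw _) c hc hsum
  have hD : Dec T₀ T (m + 1) (n + 1) Φ w c := ⟨hw, hc, hΦ⟩
  have hf : IndepLiftingFails (Elt N) T.τ := by
    refine fails hD α β t sα sβ (by rw [hα0]; linarith) (by rw [hβ0]; linarith)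
      (fun i j => rfl) hti htj (fun k => P (φ k)) (fun k => Q (φ k)) (fun k => hP _)
      (fun k => hQ _) hlimc δ hB.pos ?_
    intro k p' q' hp' hq' hz hd1 hd2
    have hp0 : p' 0 = 0 := by
      have h1 : p' 0 * ∑ j, q' j = 0 := by
        rw [Finset.mul_sum]
        exact Finset.sum_eq_zero fun j _ => hz 0 j (htj j)
      rwa [hq'.sum, mul_one] at h1
    have hq0 : q' 0 = 0 := by
      have h1 : (∑ i, p' i) * q' 0 = 0 := by
        rw [Finset.sum_mul]
        exact Finset.sum_eq_zero fun i _ => hz i 0 (hti i)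
      rwa [hp'.sum, one_mul] at h1
    refine hB.bad (φ k) (fun i => p' (eI i).succ) (fun j => q' (eJ j).succ)
      (pvm_restrict eI hp' hp0) (pvm_restrict eJ hq' hq0) (fun i j hij => hz _ _ (htz i j hij))
      (fun i => ?_) (fun j => ?_)
    · have h1 := hd1 (eI i).succ
      have h2 : P (φ k) (eI i).succ = p (φ k) i := by
        show ext0 eI (p (φ k)) (eI i).succ = _
        rw [ext0_succ, Equiv.symm_apply_apply]
      simp only [h2] at h1
      exact h1
    · have h1 := hd2 (eJ j).succ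
      have h2 : Q (φ k) (eJ j).succ = q (φ k) j := by
        show ext0 eJ (q (φ k)) (eJ j).succ = _
        rw [ext0_succ, Equiv.symm_apply_apply]
      simp only [h2] at h1
      exact h1
  exact ⟨K, i1, i2, i3, N, T.τ, (m + 1) * (n + 1), T.normal, ⟨T.map_one, T.tracial, T.faithful⟩,
    ⟨Φ⟩, hf, fails3 hf, not_lifts hf, not_lifts3 hf⟩

end Pool.Agent.H800R.LFA
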